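import Pool.Agent.KS6_63.HT3.Low
import Pool.Agent.KS6_63.HT2.T3

/-! # The base block: discs and crossings -/

set_option autoImplicit false

namespace Pool.Agent.KS6_63.HT3

open Equiv Pool.Agent.KS6_63.HT Pool.Agent.KS6_63.HT2 Module

export Pool.Agent.KS6_63.HT (get flip)

section

variable {N M k : ℕ} [NeZero N] {w : Fin (N + 1) → Fin k} {t : Tab} (h : GoodTab N M k w t)

theorem adj_in_disc_avoid (IDX : ℕ) (hV : allB (2 * t.En) (chkV t) = true)
    (hR : allB (2 * t.En) (chkR t) = true) (hF : allB (2 * t.En) (chkF t IDX) = true)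
    (hT : allB (2 * t.En) (chkT t) = true)
    (cert : ℕ → ℕ → List ℕ × List ℕ × List ℕ) (hP : allB t.Vn (pairsB t cert) = true)
    (x0 : Fin t.En × Bool) (hav : ∀ a b, get t.FACE (t.enc (flip x0)) ∉ (cert a b).2.2)
    (u v v' : Vt N M k) (hv : (gridGraph M w).Adj u v) (hv' : (gridGraph M w).Adj u v')
    (hne : v ≠ v') : ∃ Y : Subcomplex (tabDrawing h).toSurfaceMap, Y.IsDisc ∧
      (∀ d, ((tabDrawing h).src d = u ∧ ((tabDrawing h).tgt d = v ∨ (tabDrawing h).tgt d = v')) →
        d ∈ Y.es) ∧ (tabDrawing h).rev x0 ∉ Y.fs := by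
  have hv7 : ∀ v < t.Vn, get t.VREP v < 2 * t.En ∧ get t.VLAB (get t.VREP v) = v := by
    intro v hv
    obtain ⟨b1, b2⟩ := Tab.bnd_spec (allB_spec h.c7 v hv)
    exact ⟨GoodTab.blt_eq b1, GoodTab.beq_eq b2⟩
  have hex := rot_exact h hV hR (fun v hv => (hv7 v hv).1)
  obtain ⟨x, ⟨hx1, hx2, hx3⟩, _⟩ := (tabDrawing h).start u v hv
  obtain ⟨y, ⟨hy1, hy2, hy3⟩, _⟩ := (tabDrawing h).start u v' hv'
  have hcyc := (tabDrawing h).vertex_cyclic x y hx3 hy3 (hx1.trans hy1.symm)
  change Fin t.En × Bool at x y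
  have hlab : get t.VLAB (t.enc x) = get t.VLAB (t.enc y) := (hex x y).1 hcyc
  obtain ⟨d0, r1, i, hi, r2⟩ := rot_same h x hV (fun v hv => (hv7 v hv).1) hR
  obtain ⟨d0', r1', j, hj, r2'⟩ := rot_same h y hV (fun v hv => (hv7 v hv).1) hR
  have hdd : d0 = d0' := enc_inj h.pos (by rw [r1, r1', hlab])
  subst hdd
  have hvlt : get t.VLAB (t.enc x) < t.Vn :=
    GoodTab.blt_eq (Tab.bnd_spec (allB_spec hR _ (t.enc_lt x))).1
  have hpx : t.enc x = (get t.ROT)^[i] (get t.VREP (get t.VLAB (t.enc x))) := by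
    conv_lhs => rw [← r2]
    rw [pow_enc, r1]
  have hpy : t.enc y = (get t.ROT)^[j] (get t.VREP (get t.VLAB (t.enc x))) := by
    conv_lhs => rw [← r2']
    rw [pow_enc, r1]
  -- the vertex is not a crossing
  have hpos0 : get t.POS (get t.VREP (get t.VLAB (t.enc x))) = 0 := by
    rw [← r1]
    by_contra hne0
    have hp : ∀ n : ℕ, 0 < get t.POS (t.enc (((rotP h) ^ n) d0)) := by
      intro n
      induction n with
      | zero => exact Nat.pos_of_ne_zero hne0
      | succ n ih =>
        rw [pow_succ', Perm.mul_apply, enc_rotP]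
        exact (h.s4b (t.enc_lt _) ih).1
    have := hp i
    rw [r2] at this
    have hx3' : get t.POS (t.enc x) = 0 := hx3
    omega
  have hx : (labP x : Ed N M × Bool) ≠ labP y := by
    intro he
    apply hne
    have e1 : tail w (flip (labP x : Ed N M × Bool)) = v := hx2
    have e2 : tail w (flip (labP y : Ed N M × Bool)) = v' := hy2
    rw [← e1, ← e2, he]
  have hxl : get t.LAB (t.enc x) ≠ get t.LAB (t.enc y) := by
    intro he
    apply hx
    apply encL_inj
    rw [encL_labP h, encL_labP h, he]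
  have hc := allB_spec hP _ hvlt
  unfold pairsB at hc
  rw [hpos0] at hc
  have hz : Nat.beq 0 0 = true := rfl
  rw [hz, cond_true] at hc
  have hc1 := allB_spec (allB_spec hc i hi) j hj
  rw [← hpx, ← hpy] at hc1
  rcases beq_cases (get t.LAB (t.enc x)) (get t.LAB (t.enc y)) with ⟨_, c2⟩ | ⟨c1, _⟩
  · exact absurd c2 hxl
  rw [c1, cond_false] at hc1
  unfold pairB at hc1
  obtain ⟨p1, hc1⟩ := Tab.bnd_spec hc1
  obtain ⟨p2, p3⟩ := Tab.bnd_spec hc1
  have sp := discB_spec p1
  refine ⟨subOf h _ _ _ sp.2.2.2.2.2.2.1 sp.2.2.2.2.2.2.2.1,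
    subOf_isDisc h IDX hV hR hF _ _ _ p1 _ _, ?_, hav _ _⟩
  intro d hd
  change Fin t.En × Bool at d
  change t.enc d / 2 ∈ (cert (t.enc x) (t.enc y)).2.1
  have htr : t.enc d ∈ trail t (get t.LAB (t.enc d)) :=
    memB_iff.1 (allB_spec hT _ (t.enc_lt d))
  obtain ⟨q1, q2⟩ := hd
  have ends : ∀ z : Fin t.En × Bool, tail w (labP z : Ed N M × Bool) = u →
      tail w (flip (labP d : Ed N M × Bool)) = tail w (flip (labP z : Ed N M × Bool)) →
      get t.LAB (t.enc d) = get t.LAB (t.enc z) := by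
    intro z hz1 hz2
    have : (labP d : Ed N M × Bool) = labP z := ends_inj w (q1.trans hz1.symm) hz2
    rw [← encL_labP h, ← encL_labP h, this]
  rcases q2 with q2 | q2
  · rw [ends x hx1 (q2.trans hx2.symm)] at htr
    exact memB_iff.1 (List.all_eq_true.1 p2 _ htr)
  · rw [ends y hy1 (q2.trans hy2.symm)] at htr
    exact memB_iff.1 (List.all_eq_true.1 p3 _ htr)


theorem discOK_of {V : Type} {G : SimpleGraph V} (𝒟 : Drawing G) (x : 𝒟.D)
    (h : ∀ u v v', G.Adj u v → G.Adj u v' → v ≠ v' → ∃ Y : Subcomplex 𝒟.toSurfaceMap, Y.IsDisc ∧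
      (∀ d, (𝒟.src d = u ∧ (𝒟.tgt d = v ∨ 𝒟.tgt d = v')) → d ∈ Y.es) ∧ 𝒟.rev x ∉ Y.fs)
    (h2 : ∀ d, 𝒟.pos d = 0 → 𝒟.rot d ≠ d) : DiscOK 𝒟 x := by
  intro u v v' hv hv'
  by_cases hvv : v = v'
  · subst hvv
    obtain ⟨d, ⟨d1, d2, d3⟩, d4⟩ := 𝒟.start u v hv
    have e1 := 𝒟.vertex d d3
    have hw : G.Adj u (𝒟.tgt (𝒟.rot d)) := by
      have := 𝒟.adj (𝒟.rot d)
      rw [e1.2, d1] at this
      exact this
    have hne : v ≠ 𝒟.tgt (𝒟.rot d) := by
      intro he
      apply h2 d d3
      exact d4 _ ⟨e1.2.trans d1, he.symm, e1.1⟩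
    obtain ⟨Y, y1, y2, y3⟩ := h u v _ hv hw hne
    exact ⟨Y, y1, fun z hz => y2 z ⟨hz.1, Or.inl (hz.2.elim id id)⟩, y3⟩
  · exact h u v v' hv hv' hvv

/-- the pieces of the edge of `c` that end in a crossing with the edge crossed at `c` -/
def crL (t : Tab) (c : ℕ) : List ℕ :=
  (trail t (get t.LAB c)).filter fun c' => cond (Nat.beq (get t.POS c') 0) false
    (Nat.beq (get t.LAB (get t.ROT c') / 2) (get t.LAB (get t.ROT c) / 2))

/-- bound of the crossing numbers -/
def crB (w : Fin (N + 1) → Fin k) (M : ℕ) (t : Tab) (c : ℕ) : Bool :=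
  cond (Nat.beq (get t.POS c) 0) true
    (Nat.ble (crL t c).length (cond (indB w M (get t.LAB c) (get t.LAB (get t.ROT c))) 2 1))

omit [NeZero N] in
theorem encL_half (b : Ed N M × Bool) : encL (flip b) / 2 = encL b / 2 := by
  obtain ⟨⟨c, r⟩ | ⟨c, r⟩, b⟩ := b <;> cases b <;>
    simp only [flip_apply, encL, Bool.not_true, Bool.not_false, cond_true, cond_false] <;> omega

theorem indB_false {a b : Ed N M × Bool} (hs : tail w a = tail w b) :
    indB w M (encL a) (encL b) = false := by
  have : Nat.beq (vcode (tail w a)) (vcode (tail w b)) = true := by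
    rw [hs]; exact Nat.beq_refl _
  simp only [indB, decL_encL]
  rw [this, cond_true]

theorem indB_false' {a b : Ed N M × Bool} (hs : tail w a = tail w b) :
    indB w M (encL a) (encL (flip b)) = false := by
  have : Nat.beq (vcode (tail w a)) (vcode (tail w b)) = true := by
    rw [hs]; exact Nat.beq_refl _
  have hf : flip (flip b) = b := by simp
  simp only [indB, decL_encL]
  rw [hf, this]
  simp only [cond_true]
  cases Nat.beq (vcode (tail w a)) (vcode (tail w (flip b))) <;> rfl

theorem cross_bound (hT : allB (2 * t.En) (chkT t) = true)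
    (hC : allB (2 * t.En) (crB w M t) = true) (a b : Ed N M × Bool) (n : ℕ)
    (h1 : indB w M (encL a) (encL b) = true → 2 ≤ n)
    (h2 : indB w M (encL a) (encL (flip b)) = true → 2 ≤ n) (hn : 1 ≤ n) :
    crossings (tabDrawing h) (tail w a) (tail w (flip a)) (tail w b) (tail w (flip b)) ≤ n := by
  classical
  have hflip : flip (flip b) = b := by simp
  have hcr : crossings (tabDrawing h) (tail w a) (tail w (flip a)) (tail w b) (tail w (flip b)) =
      Nat.card ((tabDrawing h).leftCrossings (tail w a) (tail w (flip a)) (tail w b)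
        (tail w (flip b))) +
      Nat.card ((tabDrawing h).leftCrossings (tail w a) (tail w (flip a)) (tail w (flip b))
        (tail w (flip (flip b)))) := by
    rw [hflip]
    rfl
  let S1 : Finset (Fin t.En × Bool) := Finset.univ.filter fun d =>
    0 < get t.POS (t.enc d) ∧ get t.LAB (t.enc d) = encL a ∧
      get t.LAB (get t.ROT (t.enc d)) = encL b
  let S2 : Finset (Fin t.En × Bool) := Finset.univ.filter fun d =>
    0 < get t.POS (t.enc d) ∧ get t.LAB (t.enc d) = encL a ∧
      get t.LAB (get t.ROT (t.enc d)) = encL (flip b)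
  have c1 := card_left h a b S1 (fun d => by
    simp only [S1, Finset.mem_filter, Finset.mem_univ, true_and])
  have c2 := card_left h a (flip b) S2 (fun d => by
    simp only [S2, Finset.mem_filter, Finset.mem_univ, true_and])
  have hbne : encL b ≠ encL (flip b) := by
    intro he
    have := congrArg Prod.snd (encL_inj he)
    simp at this
  have hdisj : Disjoint S1 S2 := by
    rw [Finset.disjoint_left]
    intro d h1 h2
    simp only [S1, S2, Finset.mem_filter, Finset.mem_univ, true_and] at h1 h2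
    exact hbne (h1.2.2.symm.trans h2.2.2)
  rw [hcr, c1, c2, ← Finset.card_union_of_disjoint hdisj]
  have hmem : ∀ d, d ∈ S1 ∪ S2 ↔ (0 < get t.POS (t.enc d) ∧ get t.LAB (t.enc d) = encL a ∧
      (get t.LAB (get t.ROT (t.enc d)) = encL b ∨
        get t.LAB (get t.ROT (t.enc d)) = encL (flip b))) := by
    intro d
    simp only [S1, S2, Finset.mem_union, Finset.mem_filter, Finset.mem_univ, true_and]
    tauto
  rcases (S1 ∪ S2).eq_empty_or_nonempty with he | ⟨d0, hd0⟩
  · rw [he, Finset.card_empty]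
    exact Nat.zero_le _
  rw [hmem] at hd0
  have hhalf : ∀ d, (get t.LAB (get t.ROT (t.enc d)) = encL b ∨
      get t.LAB (get t.ROT (t.enc d)) = encL (flip b)) →
      get t.LAB (get t.ROT (t.enc d)) / 2 = encL b / 2 := by
    rintro d (h3 | h3)
    · rw [h3]
    · rw [h3, encL_half]
  have hle : (S1 ∪ S2).card ≤ (crL t (t.enc d0)).length := by
    have h3 : (S1 ∪ S2).image t.enc ⊆ (crL t (t.enc d0)).toFinset := by
      intro c hc
      obtain ⟨d, hd, rfl⟩ := Finset.mem_image.1 hc
      rw [hmem] at hd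
      rw [List.mem_toFinset, crL, List.mem_filter]
      have hmt : t.enc d ∈ trail t (get t.LAB (t.enc d)) :=
        memB_iff.1 (allB_spec hT _ (t.enc_lt d))
      rw [hd.2.1] at hmt
      rw [hd0.2.1]
      refine ⟨hmt, ?_⟩
      have hp : Nat.beq (get t.POS (t.enc d)) 0 = false := by
        cases e : Nat.beq (get t.POS (t.enc d)) 0
        · rfl
        · have := GoodTab.beq_eq e; omega
      rw [hp, cond_false, hhalf d hd.2.2, hhalf d0 hd0.2.2]
      exact Nat.beq_refl _
    have h4 := Finset.card_le_card h3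
    have h5 := List.toFinset_card_le (crL t (t.enc d0))
    rw [Finset.card_image_of_injective _ (fun x y hxy => enc_inj h.pos hxy)] at h4
    exact h4.trans h5
  refine hle.trans ?_
  have hc := allB_spec hC _ (t.enc_lt d0)
  have hp : Nat.beq (get t.POS (t.enc d0)) 0 = false := by
    cases e : Nat.beq (get t.POS (t.enc d0)) 0
    · rfl
    · have := GoodTab.beq_eq e; omega
  rw [crB, hp, cond_false, hd0.2.1, Nat.ble_eq] at hc
  refine hc.trans ?_
  rcases hd0.2.2 with h3 | h3
  · rw [h3]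
    cases h4 : indB w M (encL a) (encL b)
    · exact hn
    · exact h1 h4
  · rw [h3]
    cases h4 : indB w M (encL a) (encL (flip b))
    · exact hn
    · exact h2 h4

theorem tab_zeroTwo (hA : allB (2 * t.En) (chkE w M t) = true)
    (hT : allB (2 * t.En) (chkT t) = true) (hC : allB (2 * t.En) (crB w M t) = true) :
    IndepZeroTwo (tabDrawing h) := by
  have hev := tab_even h hA
  rintro u v u' v' ⟨a, rfl, rfl⟩ ⟨b, rfl, rfl⟩ hi
  have h1 := cross_bound h hT hC a b 2 (fun _ => le_rfl) (fun _ => le_rfl) (by norm_num)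
  obtain ⟨m, hm⟩ := hev _ _ _ _ ⟨a, rfl, rfl⟩ ⟨b, rfl, rfl⟩ hi
  have h2 : crossings (tabDrawing h) (tail w a) (tail w (flip a)) (tail w b) (tail w (flip b)) =
    m + m := hm
  omega

theorem tab_once (hT : allB (2 * t.En) (chkT t) = true)
    (hC : allB (2 * t.En) (crB w M t) = true) : AdjOnce (tabDrawing h) := by
  rintro u v v' ⟨a, rfl, rfl⟩ ⟨b, hb, rfl⟩
  have h1 := cross_bound h hT hC a b 1
    (fun h3 => absurd h3 (by rw [indB_false hb.symm]; decide))
    (fun h3 => absurd h3 (by rw [indB_false' hb.symm]; decide)) le_rfl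
  rw [hb] at h1
  exact h1

end

set_option maxRecDepth 1000000 in
theorem kC : allB (2 * T3.t.En) (crB W14.w 11 T3.t) = true := by decide +kernel

/-- no dart at a vertex is fixed by the rotation -/
def nofix (t : Tab) (c : ℕ) : Bool := Bool.not (Nat.beq (get t.ROT c) c)

set_option maxRecDepth 1000000 in
theorem kN : allB (2 * T3.t.En) (nofix T3.t) = true := by decide +kernel

theorem cert_faces (a b : ℕ) : (T3.cert a b).2.2 = T3.disc1.2.2 ∨ (T3.cert a b).2.2 = T3.disc2.2.2 ∨
    (T3.cert a b).2.2 = T3.disc3.2.2 ∨ (T3.cert a b).2.2 = [] := by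
  unfold T3.cert
  cases (Nat.beq (a + b) 1242 && (Nat.beq a 545 || Nat.beq a 697))
  · cases (Nat.beq (a + b) 1240 && (Nat.beq a 569 || Nat.beq a 671))
    · cases (Nat.beq (a + b) 1200 && (Nat.beq a 573 || Nat.beq a 627))
      · exact Or.inr (Or.inr (Or.inr rfl))
      · exact Or.inr (Or.inr (Or.inl rfl))
    · exact Or.inr (Or.inl rfl)
  · exact Or.inl rfl

/-- the marked dart of the base block -/
def x0 : Fin T3.t.En × Bool := (⟨0, T3.good.pos⟩, false)

set_option maxRecDepth 1000000 in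
theorem kx : get T3.t.FACE 1 = 1 := by decide +kernel

theorem avoid (a b : ℕ) : get T3.t.FACE (T3.t.enc (flip x0)) ∉ (T3.cert a b).2.2 := by
  have h1 : T3.t.enc (flip x0) = 1 := rfl
  rw [h1, kx]
  rcases cert_faces a b with h | h | h | h <;> rw [h]
  · change 1 ∉ [139, 140, 158, 159]; decide
  · change 1 ∉ [127, 128, 146, 163]; decide
  · change 1 ∉ [147, 148, 149, 150]; decide
  · simp

set_option maxRecDepth 1000000 in
theorem kp : get T3.t.POS 0 = 0 := by decide +kernel

theorem rot_ne (d : Fin T3.t.En × Bool) : rotP T3.good d ≠ d := by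
  intro hd
  have h1 := allB_spec kN _ (T3.t.enc_lt d)
  have h2 : T3.t.enc (rotP T3.good d) = T3.t.enc d := congrArg _ hd
  rw [enc_rotP] at h2
  rw [nofix, h2, Nat.beq_refl] at h1
  exact absurd h1 (by decide)

/-- The base block: a drawing on the surface of genus `3`, and no embedding on that surface. -/
theorem base_good : Good (gridGraph 11 W14.w) (2 - 2 * 3) (2 - 2 * 4) where
  conn := gridGraph_connected W14.w W14.bcol W14.D.hb
  draw := by
    refine ⟨tabDrawing T3.good, x0, kp, ?_, tab_zeroTwo T3.good T3.chkE T3.kT kC,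
      tab_once T3.good T3.kT kC, ?_⟩
    · rw [exact_euler T3.good T3.idx T3.kV T3.kR T3.kF]
      decide
    · apply discOK_of
      · intro u v v' hv hv' hne
        exact adj_in_disc_avoid T3.good T3.idx T3.kV T3.kR T3.kF T3.kT T3.cert T3.kP x0 avoid
          u v v' hv hv' hne
      · intro d _ hd
        exact rot_ne d hd
  low := by
    intro ℰ hE
    have := emb_euler_le W14.D (M := 11) (g := 3) (by norm_num) (by norm_num) W14.el W14.final ℰ hE
    have h2 : (2 : ℤ) - 2 * (((3 : ℕ) : ℤ) + 1) = 2 - 2 * 4 := by norm_num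
    rw [h2] at this
    exact this

end Pool.Agent.KS6_63.HT3
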