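import Pool.Agent.KS6_63.HT3.Split

/-! # Embeddings: discs and counting -/

set_option autoImplicit false

namespace Pool.Agent.KS6_63.HT3

open Equiv Pool.Agent.KS6_63.HT Pool.Agent.KS6_63.HT2 Module

section count

variable {D : Type} [Fintype D] (σ : Perm D)

theorem card_eq_sum [Fintype (Quotient (Perm.SameCycle.setoid σ))] : Fintype.card D =
    ∑ q : Quotient (Perm.SameCycle.setoid σ),
      Nat.card {d : D // Quotient.mk (Perm.SameCycle.setoid σ) d = q} := by
  classical
  have : Fintype.card D = Nat.card (Σ q : Quotient (Perm.SameCycle.setoid σ),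
      {d : D // Quotient.mk (Perm.SameCycle.setoid σ) d = q}) := by
    rw [← Nat.card_eq_fintype_card]
    exact Nat.card_congr (Equiv.sigmaFiberEquiv _).symm
  rw [this, Nat.card_sigma]

theorem fiber_card (d : D) : Nat.card {d' : D // Quotient.mk (Perm.SameCycle.setoid σ) d' =
    Quotient.mk _ d} = Nat.card {d' : D // σ.SameCycle d' d} :=
  Nat.card_congr (Equiv.subtypeEquivRight fun _ => ⟨fun h => Quotient.exact h, fun h => Quotient.sound h⟩)

theorem orb_le {k : ℕ} (h : ∀ d, k ≤ Nat.card {d' : D // σ.SameCycle d' d}) :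
    k * numOrbits σ ≤ Fintype.card D := by
  classical
  haveI : Fintype (Quotient (Perm.SameCycle.setoid σ)) := Fintype.ofFinite _
  rw [card_eq_sum σ, numOrbits, Nat.card_eq_fintype_card, mul_comm, ← smul_eq_mul,
    ← Finset.card_univ, ← Finset.sum_const]
  apply Finset.sum_le_sum
  intro q _
  induction q using Quotient.ind with
  | _ d =>
    rw [fiber_card]
    exact h d

theorem orb_ge {k : ℕ} (h : ∀ d, Nat.card {d' : D // σ.SameCycle d' d} ≤ k) :
    Fintype.card D ≤ k * numOrbits σ := by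
  classical
  haveI : Fintype (Quotient (Perm.SameCycle.setoid σ)) := Fintype.ofFinite _
  rw [card_eq_sum σ, numOrbits, Nat.card_eq_fintype_card, mul_comm, ← smul_eq_mul,
    ← Finset.card_univ, ← Finset.sum_const]
  apply Finset.sum_le_sum
  intro q _
  induction q using Quotient.ind with
  | _ d =>
    rw [fiber_card]
    exact h d

end count

variable {V : Type} {G : SimpleGraph V}

theorem emb_left {𝒟 : Drawing G} (hE : 𝒟.IsEmbedding) (u v u' v' : V) :
    Nat.card (𝒟.leftCrossings u v u' v') = 0 := by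
  have : 𝒟.leftCrossings u v u' v' = ∅ := by
    rw [Set.eq_empty_iff_forall_notMem]
    rintro d ⟨h, _⟩
    rw [hE d] at h
    exact absurd h (lt_irrefl 0)
  rw [this]
  exact Nat.card_of_isEmpty

theorem emb_indep {𝒟 : Drawing G} (hE : 𝒟.IsEmbedding) : IndepZeroTwo 𝒟 := by
  intro u v u' v' _ _ _
  left
  rw [crossings, emb_left hE, emb_left hE]

theorem emb_adj {𝒟 : Drawing G} (hE : 𝒟.IsEmbedding) : AdjOnce 𝒟 := by
  intro u v v' _ _
  rw [crossings, emb_left hE, emb_left hE]
  exact Nat.zero_le _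

theorem emb_disc {𝒟 : Drawing G} (hE : 𝒟.IsEmbedding) (x : 𝒟.D) : DiscOK 𝒟 x := by
  have hfin := 𝒟.fin
  intro u v v' hv hv'
  have hsrc : ∀ d, 𝒟.src (𝒟.rot d) = 𝒟.src d := fun d => (𝒟.vertex d (hE d)).2
  have hcyc : ∀ d d', 𝒟.src d = 𝒟.src d' → 𝒟.rot.SameCycle d d' := fun d d' h =>
    𝒟.vertex_cyclic d d' (hE d) (hE d') h
  have hsame : ∀ d d', 𝒟.rot.SameCycle d d' → 𝒟.src d = 𝒟.src d' := by
    intro d d' h
    exact ((sameCycle_iff_inv _ d d').1 h (fun z => 𝒟.src z = 𝒟.src d')
      (fun z => by rw [hsrc])).2 rfl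
  obtain ⟨e, ⟨e1, e2, _⟩, e4⟩ := 𝒟.start u v hv
  obtain ⟨e', ⟨e1', e2', _⟩, e4'⟩ := 𝒟.start u v' hv'
  have f1 : 𝒟.src (𝒟.rev e) = v := by rw [𝒟.src_rev, e2]
  have f1' : 𝒟.src (𝒟.rev e') = v' := by rw [𝒟.src_rev, e2']
  have huv : u ≠ v := hv.ne
  have huv' : u ≠ v' := hv'.ne
  have orb1 : ∀ y : 𝒟.D, numOrbitsIn 𝒟.rot {d | 𝒟.src d = 𝒟.src y} = 1 := fun y =>
    numOrbitsIn_one _ _ y rfl (fun a ha => hcyc _ _ (Eq.symm ha))
  have orb2 : ∀ y : 𝒟.D, numOrbitsIn 𝒟.rev {d | d = y ∨ d = 𝒟.rev y} = 1 := fun y =>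
    numOrbitsIn_one _ _ y (Or.inl rfl) (by
      rintro a (ha | ha)
      · rw [ha]
      · rw [ha]; exact ⟨1, by rw [zpow_one]⟩)
  have hfs : numOrbitsIn (𝒟.rot * 𝒟.rev) (∅ : Set 𝒟.D) = 0 := by
    unfold numOrbitsIn
    rw [Set.image_empty, Set.ncard_empty]
  by_cases hvv : v = v'
  · subst hvv
    have hee : e' = e := e4 e' ⟨e1', e2', hE _⟩
    let Y : Subcomplex 𝒟.toSurfaceMap :=
      { vs := {d | 𝒟.src d = 𝒟.src e} ∪ {d | 𝒟.src d = 𝒟.src (𝒟.rev e)}
        es := {d | d = e ∨ d = 𝒟.rev e}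
        fs := ∅
        vs_rot := by
          rintro d (hd | hd)
          · exact Or.inl ((hsrc d).trans hd)
          · exact Or.inr ((hsrc d).trans hd)
        es_rev := by
          rintro d (hd | hd)
          · rw [hd]; exact Or.inr rfl
          · rw [hd, 𝒟.rev_rev]; exact Or.inl rfl
        fs_face := fun d hd => hd
        es_vs := by
          rintro d (hd | hd)
          · rw [hd]; exact Or.inl rfl
          · rw [hd]; exact Or.inr rfl
        fs_es := fun d hd => hd.elim }
    refine ⟨Y, ⟨⟨⟨e, Or.inl rfl⟩, ?_⟩, ?_, ?_⟩, ?_, fun h => h⟩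
    · intro T hT hne hrot hrev
      have hcl : ∀ d d', 𝒟.src d = 𝒟.src d' → d ∈ T → d' ∈ T := fun d d' h hd =>
        closed_same hrot (hcyc d d' h) hd
      have he : e ∈ T := by
        obtain ⟨d, hd⟩ := hne
        rcases hT hd with h | h
        · exact hcl _ _ h hd
        · have h1 := hcl _ _ h hd
          have h2 := hrev _ h1 (Or.inr rfl)
          rw [𝒟.rev_rev] at h2
          exact h2
      have he' : 𝒟.rev e ∈ T := hrev _ he (Or.inl rfl)
      apply Set.Subset.antisymm hT
      rintro d (hd | hd)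
      · exact hcl _ _ (Eq.symm hd) he
      · exact hcl _ _ (Eq.symm hd) he'
    · intro h
      have : e ∈ (∅ : Set 𝒟.D) := by
        have h1 : Y.fs = ∅ := rfl
        rw [← h1, h]
        exact Set.mem_univ _
      exact this
    · have c1 : numOrbitsIn 𝒟.rot Y.vs = 1 + 1 := by
        have := numOrbitsIn_union 𝒟.rot {d | 𝒟.src d = 𝒟.src e}
          {d | 𝒟.src d = 𝒟.src (𝒟.rev e)} (by
            intro a ha b hb hab
            have h1 := hsame a b hab
            have ha' : 𝒟.src a = 𝒟.src e := ha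
            have hb' : 𝒟.src b = 𝒟.src (𝒟.rev e) := hb
            rw [ha', hb', e1, f1] at h1
            exact huv h1)
        rw [orb1, orb1] at this
        exact this
      have c2 : numOrbitsIn 𝒟.rev Y.es = 1 := orb2 e
      have c3 : numOrbitsIn (𝒟.rot * 𝒟.rev) Y.fs = 0 := hfs
      unfold Subcomplex.euler
      rw [c1, c2, c3]
      norm_num
    · rintro d ⟨h1, h2⟩
      have h3 : 𝒟.tgt d = v := h2.elim id id
      exact Or.inl (e4 d ⟨h1, h3, hE _⟩)
  · let Y : Subcomplex 𝒟.toSurfaceMap :=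
      { vs := ({d | 𝒟.src d = 𝒟.src e} ∪ {d | 𝒟.src d = 𝒟.src (𝒟.rev e)}) ∪
          {d | 𝒟.src d = 𝒟.src (𝒟.rev e')}
        es := {d | d = e ∨ d = 𝒟.rev e} ∪ {d | d = e' ∨ d = 𝒟.rev e'}
        fs := ∅
        vs_rot := by
          rintro d ((hd | hd) | hd)
          · exact Or.inl (Or.inl ((hsrc d).trans hd))
          · exact Or.inl (Or.inr ((hsrc d).trans hd))
          · exact Or.inr ((hsrc d).trans hd)
        es_rev := by
          rintro d ((hd | hd) | (hd | hd))
          · rw [hd]; exact Or.inl (Or.inr rfl)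
          · rw [hd, 𝒟.rev_rev]; exact Or.inl (Or.inl rfl)
          · rw [hd]; exact Or.inr (Or.inr rfl)
          · rw [hd, 𝒟.rev_rev]; exact Or.inr (Or.inl rfl)
        fs_face := fun d hd => hd
        es_vs := by
          rintro d ((hd | hd) | (hd | hd))
          · rw [hd]; exact Or.inl (Or.inl rfl)
          · rw [hd]; exact Or.inl (Or.inr rfl)
          · rw [hd]; exact Or.inl (Or.inl (e1'.trans e1.symm))
          · rw [hd]; exact Or.inr rfl
        fs_es := fun d hd => hd.elim }
    refine ⟨Y, ⟨⟨⟨e, Or.inl (Or.inl rfl)⟩, ?_⟩, ?_, ?_⟩, ?_, fun h => h⟩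
    · intro T hT hne hrot hrev
      have hcl : ∀ d d', 𝒟.src d = 𝒟.src d' → d ∈ T → d' ∈ T := fun d d' h hd =>
        closed_same hrot (hcyc d d' h) hd
      have he : e ∈ T := by
        obtain ⟨d, hd⟩ := hne
        rcases hT hd with (h | h) | h
        · exact hcl _ _ h hd
        · have h1 := hcl _ _ h hd
          have h2 := hrev _ h1 (Or.inl (Or.inr rfl))
          rw [𝒟.rev_rev] at h2
          exact h2
        · have h1 := hcl _ _ h hd
          have h2 := hrev _ h1 (Or.inr (Or.inr rfl))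
          rw [𝒟.rev_rev] at h2
          exact hcl _ _ (e1'.trans e1.symm) h2
      have he' : 𝒟.rev e ∈ T := hrev _ he (Or.inl (Or.inl rfl))
      have he2 : e' ∈ T := hcl _ _ (e1.trans e1'.symm) he
      have he3 : 𝒟.rev e' ∈ T := hrev _ he2 (Or.inr (Or.inl rfl))
      apply Set.Subset.antisymm hT
      rintro d ((hd | hd) | hd)
      · exact hcl _ _ (Eq.symm hd) he
      · exact hcl _ _ (Eq.symm hd) he'
      · exact hcl _ _ (Eq.symm hd) he3
    · intro h
      have : e ∈ (∅ : Set 𝒟.D) := by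
        have h1 : Y.fs = ∅ := rfl
        rw [← h1, h]
        exact Set.mem_univ _
      exact this
    · have c1 : numOrbitsIn 𝒟.rot Y.vs = 1 + 1 + 1 := by
        have k1 := numOrbitsIn_union 𝒟.rot {d | 𝒟.src d = 𝒟.src e}
          {d | 𝒟.src d = 𝒟.src (𝒟.rev e)} (by
            intro a ha b hb hab
            have h1 := hsame a b hab
            have ha' : 𝒟.src a = 𝒟.src e := ha
            have hb' : 𝒟.src b = 𝒟.src (𝒟.rev e) := hb
            rw [ha', hb', e1, f1] at h1
            exact huv h1)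
        have k2 := numOrbitsIn_union 𝒟.rot ({d | 𝒟.src d = 𝒟.src e} ∪
          {d | 𝒟.src d = 𝒟.src (𝒟.rev e)}) {d | 𝒟.src d = 𝒟.src (𝒟.rev e')} (by
            intro a ha b hb hab
            have h1 := hsame a b hab
            have hb' : 𝒟.src b = 𝒟.src (𝒟.rev e') := hb
            rcases ha with ha | ha
            · have ha' : 𝒟.src a = 𝒟.src e := ha
              rw [ha', hb', e1, f1'] at h1
              exact huv' h1
            · have ha' : 𝒟.src a = 𝒟.src (𝒟.rev e) := ha
              rw [ha', hb', f1, f1'] at h1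
              exact hvv h1)
        rw [k1, orb1, orb1, orb1] at k2
        exact k2
      have c2 : numOrbitsIn 𝒟.rev Y.es = 1 + 1 := by
        have k1 := numOrbitsIn_union 𝒟.rev {d | d = e ∨ d = 𝒟.rev e}
          {d | d = e' ∨ d = 𝒟.rev e'} (by
            intro a ha b hb hab
            have h1 := closed_same (σ := 𝒟.rev) (T := {d | d = e ∨ d = 𝒟.rev e}) (by
              rintro d (hd | hd)
              · rw [hd]; exact Or.inr rfl
              · rw [hd, 𝒟.rev_rev]; exact Or.inl rfl) hab ha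
            have n1 : e ≠ e' := by
              intro h; rw [h, e2'] at e2; exact hvv e2.symm
            have n2 : e ≠ 𝒟.rev e' := by
              intro h; rw [h, f1'] at e1; exact huv' e1.symm
            rcases h1 with h1 | h1 <;> rcases hb with hb | hb
            · exact n1 (h1.symm.trans hb)
            · exact n2 (h1.symm.trans hb)
            · apply n2
              rw [← hb, h1, 𝒟.rev_rev]
            · apply n1
              have := h1.symm.trans hb
              rw [← 𝒟.rev_rev e, this, 𝒟.rev_rev])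
        rw [orb2, orb2] at k1
        exact k1
      have c3 : numOrbitsIn (𝒟.rot * 𝒟.rev) Y.fs = 0 := hfs
      unfold Subcomplex.euler
      rw [c1, c2, c3]
      norm_num
    · rintro d ⟨h1, h2 | h2⟩
      · exact Or.inl (Or.inl (e4 d ⟨h1, h2, hE _⟩))
      · exact Or.inr (Or.inl (e4' d ⟨h1, h2, hE _⟩))

end Pool.Agent.KS6_63.HT3
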