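import Pool.Agent.KS6_63.HT3.Ins

/-! # Adding the new edge to a disc -/

set_option autoImplicit false

namespace Pool.Agent.KS6_63.HT3

open Equiv Pool.Agent.KS6_63.HT Pool.Agent.KS6_63.HT2 Module

theorem numOrbitsIn_union {D : Type} [Finite D] (σ : Perm D) (s t : Set D)
    (h : ∀ a ∈ s, ∀ b ∈ t, ¬ σ.SameCycle a b) :
    numOrbitsIn σ (s ∪ t) = numOrbitsIn σ s + numOrbitsIn σ t := by
  unfold numOrbitsIn
  rw [Set.image_union]
  have : Finite (Quotient (Perm.SameCycle.setoid σ)) := Quotient.finite _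
  apply Set.ncard_union_eq
  · rw [Set.disjoint_left]
    rintro q ⟨a, ha, rfl⟩ ⟨b, hb, hab⟩
    exact h a ha b hb (Quotient.exact hab).symm
  · exact Set.toFinite _
  · exact Set.toFinite _

theorem numOrbitsIn_one {D : Type} (σ : Perm D) (s : Set D) (y : D) (hy : y ∈ s)
    (h : ∀ a ∈ s, σ.SameCycle y a) : numOrbitsIn σ s = 1 := by
  unfold numOrbitsIn
  have : (Quotient.mk (Perm.SameCycle.setoid σ)) '' s = {Quotient.mk _ y} := by
    ext q
    constructor
    · rintro ⟨a, ha, rfl⟩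
      exact Quotient.sound (h a ha).symm
    · rintro rfl
      exact ⟨y, hy, rfl⟩
  rw [this, Set.ncard_singleton]

namespace Ins

variable {M₁ M : SurfaceMap} {ι : M₁.D → M.D} {x : M₁.D} {β : M.D} (h : Ins M₁ M ι x β)
include h

/-- the subcomplex together with the new edge -/
def ext (Y : Subcomplex M₁) (hY : M₁.rev x ∉ Y.fs) (hx : x ∈ Y.vs) : Subcomplex M where
  vs := (h.lift Y hY).vs ∪ {d | M.rot.SameCycle (M.rev β) d}
  es := (h.lift Y hY).es ∪ {d | d = β ∨ d = M.rev β}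
  fs := (h.lift Y hY).fs
  vs_rot := by
    rintro d (hd | hd)
    · exact Or.inl ((h.lift Y hY).vs_rot d hd)
    · exact Or.inr (Perm.sameCycle_apply_right.2 hd)
  es_rev := by
    rintro d (hd | hd | hd)
    · exact Or.inl ((h.lift Y hY).es_rev d hd)
    · rw [hd]; exact Or.inr (Or.inr rfl)
    · rw [hd, M.rev_rev]; exact Or.inr (Or.inl rfl)
  fs_face := (h.lift Y hY).fs_face
  es_vs := by
    rintro d (hd | hd | hd)
    · exact Or.inl ((h.lift Y hY).es_vs d hd)
    · rw [hd]; exact Or.inl (Or.inr ⟨rfl, hx⟩)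
    · rw [hd]; exact Or.inr (Perm.SameCycle.refl _ _)
  fs_es := fun d hd => Or.inl ((h.lift Y hY).fs_es d hd)

theorem not_same (hV : ∀ c, ¬ M.rot.SameCycle (M.rev β) (ι c)) {Y : Subcomplex M₁}
    {hY : M₁.rev x ∉ Y.fs} {d : M.D} (hd : d ∈ (h.lift Y hY).vs) :
    ¬ M.rot.SameCycle (M.rev β) d := by
  rcases hd with ⟨c, _, rfl⟩ | ⟨rfl, _⟩
  · exact hV c
  · intro h1
    exact hV x (h1.trans h.same_xβ.symm)

theorem ext_isDisc {Y : Subcomplex M₁} (hY : M₁.rev x ∉ Y.fs) (hx : x ∈ Y.vs) (hd : Y.IsDisc)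
    (hV : ∀ c, ¬ M.rot.SameCycle (M.rev β) (ι c)) : (h.ext Y hY hx).IsDisc := by
  have hfin := M.fin
  have hl := h.lift_isDisc hY hd
  refine ⟨⟨?_, ?_⟩, ?_, ?_⟩
  · obtain ⟨d, hd0⟩ := hl.1.1
    exact ⟨d, Or.inl hd0⟩
  · intro T hT hne hrot hrev
    have hβ : β ∈ (h.lift Y hY).vs := Or.inr ⟨rfl, hx⟩
    have hne0 : (T ∩ (h.lift Y hY).vs).Nonempty := by
      by_contra h0
      have h1 : ∀ d ∈ T, M.rot.SameCycle (M.rev β) d := by
        intro d hd0
        rcases hT hd0 with h2 | h2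
        · exact absurd ⟨d, hd0, h2⟩ h0
        · exact h2
      obtain ⟨d, hd0⟩ := hne
      have h3 : M.rev β ∈ T := closed_same hrot (h1 d hd0).symm hd0
      have h4 : M.rev (M.rev β) ∈ T := hrev _ h3 (Or.inr (Or.inr rfl))
      rw [M.rev_rev] at h4
      exact h0 ⟨β, h4, hβ⟩
    have h5 := hl.1.2 (T ∩ (h.lift Y hY).vs) Set.inter_subset_right hne0
      (fun d hd0 => ⟨hrot d hd0.1, (h.lift Y hY).vs_rot d hd0.2⟩)
      (fun d hd0 he => ⟨hrev d hd0.1 (Or.inl he),
        (h.lift Y hY).es_vs _ ((h.lift Y hY).es_rev d he)⟩)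
    have h6 : ∀ d ∈ (h.lift Y hY).vs, d ∈ T := by
      intro d hd0
      rw [← h5] at hd0
      exact hd0.1
    have h7 : M.rev β ∈ T := hrev β (h6 β hβ) (Or.inr (Or.inl rfl))
    apply Set.Subset.antisymm hT
    rintro d (hd0 | hd0)
    · exact h6 d hd0
    · exact closed_same hrot hd0 h7
  · exact hl.2.1
  · have e1 : numOrbitsIn M.rot (h.ext Y hY hx).vs = numOrbitsIn M.rot (h.lift Y hY).vs + 1 := by
      have e2 := numOrbitsIn_union M.rot (h.lift Y hY).vs {d | M.rot.SameCycle (M.rev β) d} (by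
        intro a ha b hb hab
        have hb' : M.rot.SameCycle (M.rev β) b := hb
        exact h.not_same hV ha (hb'.trans hab.symm))
      have e3 := numOrbitsIn_one M.rot {d | M.rot.SameCycle (M.rev β) d} (M.rev β)
        (Perm.SameCycle.refl _ _) (fun a ha => ha)
      rw [e3] at e2
      exact e2
    have e2 : numOrbitsIn M.rev (h.ext Y hY hx).es = numOrbitsIn M.rev (h.lift Y hY).es + 1 := by
      have e2 := numOrbitsIn_union M.rev (h.lift Y hY).es {d | d = β ∨ d = M.rev β} (by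
        rintro a ha b hb hab
        have hcl := closed_same (σ := M.rev) (T := (h.lift Y hY).es)
          (h.lift Y hY).es_rev hab ha
        obtain ⟨c, _, hc⟩ := hcl
        rcases hb with hb | hb
        · exact h.ne c (hc.symm.trans hb)
        · exact h.rev_β c (hb.symm.trans hc))
      have e3 := numOrbitsIn_one M.rev {d | d = β ∨ d = M.rev β} β (Or.inl rfl) (by
        rintro a (ha | ha)
        · rw [ha]
        · rw [ha]; exact ⟨1, by rw [zpow_one]⟩)
      rw [e3] at e2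
      exact e2
    have e3 : numOrbitsIn (M.rot * M.rev) (h.ext Y hY hx).fs =
        numOrbitsIn (M.rot * M.rev) (h.lift Y hY).fs := rfl
    have e4 := hl.2.2
    unfold Subcomplex.euler at e4 ⊢
    rw [e1, e2, e3]
    push_cast
    linarith

end Ins

end Pool.Agent.KS6_63.HT3
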