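import Pool.Agent.KS6_63.HT3.Perms

/-! # A map inside a larger map, with one more edge at a vertex -/

set_option autoImplicit false

namespace Pool.Agent.KS6_63.HT3

open Equiv Pool.Agent.KS6_63.HT Pool.Agent.KS6_63.HT2 Module

theorem closed_iff {D : Type} [Finite D] {σ : Perm D} {T : Set D} (h : ∀ d ∈ T, σ d ∈ T) (d : D) :
    σ d ∈ T ↔ d ∈ T := by
  constructor
  · intro h1
    have h2 : ∀ n : ℕ, (σ ^ (n + 1)) d ∈ T := by
      intro n
      induction n with
      | zero => simpa using h1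
      | succ n ih => rw [pow_succ', Perm.mul_apply]; exact h _ ih
    cases nonempty_fintype D
    obtain ⟨m, hm⟩ := Nat.exists_eq_succ_of_ne_zero (orderOf_pos σ).ne'
    have := h2 m
    rw [← Nat.succ_eq_add_one, ← hm, pow_orderOf_eq_one, Perm.one_apply] at this
    exact this
  · exact h d

theorem closed_same {D : Type} [Finite D] {σ : Perm D} {T : Set D} (h : ∀ d ∈ T, σ d ∈ T)
    {d d' : D} (hs : σ.SameCycle d d') (hd : d ∈ T) : d' ∈ T :=
  ((sameCycle_iff_inv σ d d').1 hs (fun z => z ∈ T) (fun z => closed_iff h z)).1 hd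

theorem same_of_closed {A D : Type} [Finite A] [Finite D] {σ : Perm A} {τ : Perm D} {ι : A → D}
    (hι : Function.Injective ι) {s : Set A} (hs : ∀ c ∈ s, σ c ∈ s)
    (h : ∀ c ∈ s, τ (ι c) = ι (σ c)) {c c' : A} (hc : c ∈ s) :
    τ.SameCycle (ι c) (ι c') ↔ σ.SameCycle c c' := by
  have key : ∀ n : ℕ, (σ ^ n) c ∈ s ∧ (τ ^ n) (ι c) = ι ((σ ^ n) c) := by
    intro n
    induction n with
    | zero => exact ⟨hc, rfl⟩
    | succ n ih =>
      rw [pow_succ', Perm.mul_apply, pow_succ', Perm.mul_apply, ih.2]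
      exact ⟨hs _ ih.1, h _ ih.1⟩
  constructor
  · intro h1
    obtain ⟨n, hn⟩ := h1.exists_nat_pow_eq
    rw [(key n).2] at hn
    exact ⟨n, by rw [zpow_natCast]; exact hι hn⟩
  · intro h1
    obtain ⟨n, hn⟩ := h1.exists_nat_pow_eq
    exact ⟨n, by rw [zpow_natCast, (key n).2, hn]⟩

/-- The map `M₁` with a new edge, leaving from the corner after the dart `x`, sits inside the
map `M`. -/
structure Ins (M₁ M : SurfaceMap) (ι : M₁.D → M.D) (x : M₁.D) (β : M.D) : Prop where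
  inj : Function.Injective ι
  ne : ∀ c, ι c ≠ β
  rot_ne : ∀ c, c ≠ x → M.rot (ι c) = ι (M₁.rot c)
  rot_x : M.rot (ι x) = β
  rot_β : M.rot β = ι (M₁.rot x)
  rev : ∀ c, M.rev (ι c) = ι (M₁.rev c)
  rev_β : ∀ c, M.rev β ≠ ι c

namespace Ins

variable {M₁ M : SurfaceMap} {ι : M₁.D → M.D} {x : M₁.D} {β : M.D} (h : Ins M₁ M ι x β)
include h

theorem same_rot (c c' : M₁.D) : M.rot.SameCycle (ι c) (ι c') ↔ M₁.rot.SameCycle c c' := by
  classical
  rw [sameCycle_iff_inv, sameCycle_iff_inv]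
  constructor
  · intro h1 f hf
    let g : M.D → Prop := fun d => (∃ c, d = ι c ∧ f c) ∨ (d = β ∧ f x)
    have g1 : ∀ c, g (ι c) ↔ f c := by
      intro c
      constructor
      · rintro (⟨c', h2, h3⟩ | ⟨h2, _⟩)
        · rw [h.inj h2]; exact h3
        · exact absurd h2 (h.ne c)
      · intro h2
        exact Or.inl ⟨c, rfl, h2⟩
    have g2 : g β ↔ f x := by
      constructor
      · rintro (⟨c', h2, h3⟩ | ⟨_, h2⟩)
        · exact absurd h2.symm (h.ne c')
        · exact h2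
      · intro h2
        exact Or.inr ⟨rfl, h2⟩
    have g3 : ∀ d, (∀ c, d ≠ ι c) → d ≠ β → ¬ g d := by
      rintro d h2 h3 (⟨c', h4, _⟩ | ⟨h4, _⟩)
      · exact h2 _ h4
      · exact h3 h4
    have hg : ∀ d, g (M.rot d) ↔ g d := by
      intro d
      by_cases d1 : ∃ c, d = ι c
      · obtain ⟨c, rfl⟩ := d1
        by_cases d2 : c = x
        · rw [d2, h.rot_x, g2, g1]
        · rw [h.rot_ne c d2, g1, g1, hf]
      by_cases d2 : d = β
      · rw [d2, h.rot_β, g1, g2, hf]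
      have d1' : ∀ c, d ≠ ι c := fun c hc => d1 ⟨c, hc⟩
      have e1 := g3 d d1' d2
      have e2 : ¬ g (M.rot d) := by
        apply g3
        · intro c hc
          have hr : M₁.rot (M₁.rot⁻¹ c) = c := M₁.rot.apply_symm_apply c
          by_cases hx : M₁.rot⁻¹ c = x
          · rw [hx] at hr
            apply d2
            apply M.rot.injective
            rw [hc, h.rot_β, hr]
          · apply d1' (M₁.rot⁻¹ c)
            apply M.rot.injective
            rw [hc, h.rot_ne _ hx, hr]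
        · intro hc
          apply d1' x
          apply M.rot.injective
          rw [hc, h.rot_x]
      exact ⟨fun h5 => absurd h5 e2, fun h5 => absurd h5 e1⟩
    have := h1 g hg
    rwa [g1, g1] at this
  · intro h1 g hg
    apply h1 (fun c => g (ι c))
    intro c
    by_cases d2 : c = x
    · rw [d2, ← h.rot_β, hg, ← h.rot_x, hg]
    · rw [← h.rot_ne c d2, hg]

theorem same_xβ : M.rot.SameCycle (ι x) β := ⟨1, by rw [zpow_one, h.rot_x]⟩

theorem same_rev (c c' : M₁.D) : M.rev.SameCycle (ι c) (ι c') ↔ M₁.rev.SameCycle c c' := by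
  have := M₁.fin
  have := M.fin
  exact same_of_closed h.inj (s := Set.univ) (fun _ _ => Set.mem_univ _)
    (fun c _ => h.rev c) (Set.mem_univ c)

theorem face (c : M₁.D) (hc : M₁.rev c ≠ x) : (M.rot * M.rev) (ι c) = ι ((M₁.rot * M₁.rev) c) := by
  rw [Perm.mul_apply, h.rev, h.rot_ne _ hc, Perm.mul_apply]

/-- the subcomplex of the larger map -/
def lift (Y : Subcomplex M₁) (hY : M₁.rev x ∉ Y.fs) : Subcomplex M where
  vs := {d | (∃ c ∈ Y.vs, d = ι c) ∨ (d = β ∧ x ∈ Y.vs)}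
  es := {d | ∃ c ∈ Y.es, d = ι c}
  fs := {d | ∃ c ∈ Y.fs, d = ι c}
  vs_rot := by
    rintro d (⟨c, hc, rfl⟩ | ⟨rfl, hx⟩)
    · by_cases d2 : c = x
      · rw [d2, h.rot_x]
        rw [d2] at hc
        exact Or.inr ⟨rfl, hc⟩
      · rw [h.rot_ne c d2]
        exact Or.inl ⟨_, Y.vs_rot c hc, rfl⟩
    · rw [h.rot_β]
      exact Or.inl ⟨_, Y.vs_rot x hx, rfl⟩
  es_rev := by
    rintro d ⟨c, hc, rfl⟩
    rw [h.rev]
    exact ⟨_, Y.es_rev c hc, rfl⟩
  fs_face := by
    rintro d ⟨c, hc, rfl⟩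
    rw [h.face c]
    · exact ⟨_, Y.fs_face c hc, rfl⟩
    · intro he
      apply hY
      rw [← he, M₁.rev_rev]
      exact hc
  es_vs := by
    rintro d ⟨c, hc, rfl⟩
    exact Or.inl ⟨c, Y.es_vs c hc, rfl⟩
  fs_es := by
    rintro d ⟨c, hc, rfl⟩
    exact ⟨c, Y.fs_es c hc, rfl⟩

theorem orb_vs (Y : Subcomplex M₁) (hY : M₁.rev x ∉ Y.fs) :
    numOrbitsIn M.rot (h.lift Y hY).vs = numOrbitsIn M₁.rot Y.vs := by
  apply numOrbitsIn_congr ι
  · intro a _ a' _
    exact h.same_rot a a'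
  · intro a ha
    exact ⟨ι a, Or.inl ⟨a, ha, rfl⟩, Perm.SameCycle.refl _ _⟩
  · rintro d (⟨c, hc, rfl⟩ | ⟨rfl, hx⟩)
    · exact ⟨c, hc, Perm.SameCycle.refl _ _⟩
    · exact ⟨x, hx, h.same_xβ⟩

theorem orb_es (Y : Subcomplex M₁) (hY : M₁.rev x ∉ Y.fs) :
    numOrbitsIn M.rev (h.lift Y hY).es = numOrbitsIn M₁.rev Y.es := by
  apply numOrbitsIn_congr ι
  · intro a _ a' _
    exact h.same_rev a a'
  · intro a ha
    exact ⟨ι a, ⟨a, ha, rfl⟩, Perm.SameCycle.refl _ _⟩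
  · rintro d ⟨c, hc, rfl⟩
    exact ⟨c, hc, Perm.SameCycle.refl _ _⟩

theorem orb_fs (Y : Subcomplex M₁) (hY : M₁.rev x ∉ Y.fs) :
    numOrbitsIn (M.rot * M.rev) (h.lift Y hY).fs = numOrbitsIn (M₁.rot * M₁.rev) Y.fs := by
  have := M₁.fin
  have := M.fin
  apply numOrbitsIn_congr ι
  · intro a ha a' _
    apply same_of_closed h.inj (s := Y.fs) (fun c hc => Y.fs_face c hc) ?_ ha
    intro c hc
    apply h.face c
    intro he
    apply hY
    rw [← he, M₁.rev_rev]
    exact hc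
  · intro a ha
    exact ⟨ι a, ⟨a, ha, rfl⟩, Perm.SameCycle.refl _ _⟩
  · rintro d ⟨c, hc, rfl⟩
    exact ⟨c, hc, Perm.SameCycle.refl _ _⟩

theorem lift_euler (Y : Subcomplex M₁) (hY : M₁.rev x ∉ Y.fs) :
    (h.lift Y hY).euler = Y.euler := by
  unfold Subcomplex.euler
  rw [h.orb_vs, h.orb_es, h.orb_fs]

theorem lift_conn {Y : Subcomplex M₁} (hY : M₁.rev x ∉ Y.fs) (hc : Y.Connected) {T : Set M.D}
    (hT : T ⊆ (h.lift Y hY).vs) (hne : T.Nonempty) (hrot : ∀ d ∈ T, M.rot d ∈ T)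
    (hrev : ∀ d ∈ T, d ∈ (h.lift Y hY).es → M.rev d ∈ T) : T = (h.lift Y hY).vs := by
  have h1 : {c | ι c ∈ T} = Y.vs := by
    apply hc.2
    · intro c hc
      rcases hT hc with ⟨c', h1, h2⟩ | ⟨h1, _⟩
      · rw [h.inj h2]; exact h1
      · exact absurd h1 (h.ne c)
    · obtain ⟨d, hd⟩ := hne
      rcases hT hd with ⟨c', h1, rfl⟩ | ⟨rfl, _⟩
      · exact ⟨c', hd⟩
      · refine ⟨M₁.rot x, ?_⟩
        have := hrot _ hd
        rw [h.rot_β] at this
        exact this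
    · intro c hc
      have h2 := hrot _ hc
      by_cases d2 : c = x
      · rw [d2, h.rot_x] at h2
        have h3 := hrot _ h2
        rw [h.rot_β] at h3
        rw [d2]
        exact h3
      · rw [h.rot_ne c d2] at h2
        exact h2
    · intro c hc hce
      have h2 := hrev _ hc ⟨c, hce, rfl⟩
      rw [h.rev] at h2
      exact h2
  apply Set.Subset.antisymm hT
  rintro d (⟨c, hc, rfl⟩ | ⟨rfl, hx⟩)
  · rw [← h1] at hc
    exact hc
  · rw [← h1] at hx
    have := hrot _ hx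
    rw [h.rot_x] at this
    exact this

theorem lift_isDisc {Y : Subcomplex M₁} (hY : M₁.rev x ∉ Y.fs) (hd : Y.IsDisc) :
    (h.lift Y hY).IsDisc := by
  refine ⟨⟨?_, ?_⟩, ?_, ?_⟩
  · obtain ⟨c, hc⟩ := hd.1.1
    exact ⟨ι c, Or.inl ⟨c, hc, rfl⟩⟩
  · intro T hT hne hrot hrev
    exact h.lift_conn hY hd.1 hT hne hrot hrev
  · intro hu
    have : β ∈ (h.lift Y hY).fs := by rw [hu]; exact Set.mem_univ _
    obtain ⟨c, _, hc⟩ := this
    exact h.ne c hc.symm
  · rw [h.lift_euler]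
    exact hd.2.2

end Ins

end Pool.Agent.KS6_63.HT3
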