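import Pool.Agent.KS6_63.HT3.Ext

/-! # Two drawings joined by an edge -/

set_option autoImplicit false

namespace Pool.Agent.KS6_63.HT3

open Equiv Pool.Agent.KS6_63.HT Pool.Agent.KS6_63.HT2 Module

section perms

variable {A B : Type} [DecidableEq A] [DecidableEq B]

/-- the rotation of the join -/
def jRot (r₁ : Perm A) (r₂ : Perm B) (x₁ : A) (x₂ : B) : Perm ((A ⊕ B) ⊕ Bool) :=
  Perm.sumCongr (Perm.sumCongr r₁ r₂) 1 * swap (Sum.inl (Sum.inl x₁)) (Sum.inr false) *
    swap (Sum.inl (Sum.inr x₂)) (Sum.inr true)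

/-- the reversal of the join -/
def jRev (v₁ : Perm A) (v₂ : Perm B) : Perm ((A ⊕ B) ⊕ Bool) :=
  Perm.sumCongr (Perm.sumCongr v₁ v₂) 1 * swap (Sum.inr false) (Sum.inr true)

variable (r₁ v₁ : Perm A) (r₂ v₂ : Perm B) (x₁ : A) (x₂ : B)

theorem jData : JoinData (Perm.sumCongr (Perm.sumCongr r₁ r₂) (1 : Perm Bool))
    (Perm.sumCongr (Perm.sumCongr v₁ v₂) (1 : Perm Bool)) (Sum.inl (Sum.inl x₁))
    (Sum.inl (Sum.inr x₂)) (Sum.inr false) (Sum.inr true) where
  ρb := rfl
  ρb' := rfl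
  τb := rfl
  τb' := rfl
  hbb := by simp
  hS := by
    refine ⟨fun d => ∃ a, d = Sum.inl (Sum.inl a), ?_, ?_, ⟨x₁, rfl⟩, by simp, by simp, by simp⟩
    · rintro ((a | a) | a)
      · exact ⟨fun _ => ⟨a, rfl⟩, fun _ => ⟨r₁ a, rfl⟩⟩
      · simp
      · simp
    · rintro ((a | a) | a)
      · exact ⟨fun _ => ⟨a, rfl⟩, fun _ => ⟨v₁ a, rfl⟩⟩
      · simp
      · simp
  h2b := by simp
  h2b' := by simp

theorem jRot_l (d : A) (h : d ≠ x₁) :
    jRot r₁ r₂ x₁ x₂ (Sum.inl (Sum.inl d)) = Sum.inl (Sum.inl (r₁ d)) := by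
  rw [jRot, Perm.mul_apply, swap_apply_of_ne_of_ne (by simp) (by simp), Perm.mul_apply,
    swap_apply_of_ne_of_ne (by simpa using h) (by simp)]
  rfl

theorem jRot_l' : jRot r₁ r₂ x₁ x₂ (Sum.inl (Sum.inl x₁)) = Sum.inr false := by
  rw [jRot, Perm.mul_apply, swap_apply_of_ne_of_ne (by simp) (by simp), Perm.mul_apply,
    swap_apply_left]
  rfl

theorem jRot_f : jRot r₁ r₂ x₁ x₂ (Sum.inr false) = Sum.inl (Sum.inl (r₁ x₁)) := by
  rw [jRot, Perm.mul_apply, swap_apply_of_ne_of_ne (by simp) (by simp), Perm.mul_apply,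
    swap_apply_right]
  rfl

theorem jRot_r (d : B) (h : d ≠ x₂) :
    jRot r₁ r₂ x₁ x₂ (Sum.inl (Sum.inr d)) = Sum.inl (Sum.inr (r₂ d)) := by
  rw [jRot, Perm.mul_apply, swap_apply_of_ne_of_ne (by simpa using h) (by simp), Perm.mul_apply,
    swap_apply_of_ne_of_ne (by simp) (by simp)]
  rfl

theorem jRot_r' : jRot r₁ r₂ x₁ x₂ (Sum.inl (Sum.inr x₂)) = Sum.inr true := by
  rw [jRot, Perm.mul_apply, swap_apply_left, Perm.mul_apply,
    swap_apply_of_ne_of_ne (by simp) (by simp)]
  rfl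

theorem jRot_t : jRot r₁ r₂ x₁ x₂ (Sum.inr true) = Sum.inl (Sum.inr (r₂ x₂)) := by
  rw [jRot, Perm.mul_apply, swap_apply_right, Perm.mul_apply,
    swap_apply_of_ne_of_ne (by simp) (by simp)]
  rfl

theorem jRev_l (d : A) : jRev v₁ v₂ (Sum.inl (Sum.inl d)) = Sum.inl (Sum.inl (v₁ d)) := by
  rw [jRev, Perm.mul_apply, swap_apply_of_ne_of_ne (by simp) (by simp)]
  rfl

theorem jRev_r (d : B) : jRev v₁ v₂ (Sum.inl (Sum.inr d)) = Sum.inl (Sum.inr (v₂ d)) := by
  rw [jRev, Perm.mul_apply, swap_apply_of_ne_of_ne (by simp) (by simp)]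
  rfl

theorem jRev_b (b : Bool) : jRev v₁ v₂ (Sum.inr b) = Sum.inr (!b) := by
  cases b
  · rw [jRev, Perm.mul_apply, swap_apply_left]
    rfl
  · rw [jRev, Perm.mul_apply, swap_apply_right]
    rfl

end perms

/-- two maps joined by an edge from the corner after `x₁` to the corner after `x₂` -/
noncomputable def joinMap (M₁ M₂ : SurfaceMap) (x₁ : M₁.D) (x₂ : M₂.D) : SurfaceMap :=
  letI := M₁.fin
  letI := M₂.fin
  letI := Classical.decEq M₁.D
  letI := Classical.decEq M₂.D
  { D := (M₁.D ⊕ M₂.D) ⊕ Bool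
    fin := inferInstance
    rot := jRot M₁.rot M₂.rot x₁ x₂
    rev := jRev M₁.rev M₂.rev
    rev_rev := by
      rintro ((a | a) | a)
      · rw [jRev_l, jRev_l, M₁.rev_rev]
      · rw [jRev_r, jRev_r, M₂.rev_rev]
      · rw [jRev_b, jRev_b, Bool.not_not]
    rev_ne := by
      rintro ((a | a) | a)
      · rw [jRev_l]
        intro h
        exact M₁.rev_ne a (Sum.inl_injective (Sum.inl_injective h))
      · rw [jRev_r]
        intro h
        exact M₂.rev_ne a (Sum.inr_injective (Sum.inl_injective h))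
      · rw [jRev_b]
        intro h
        have := Sum.inr_injective h
        cases a <;> simp at this
    conn := by
      intro s hs hcl
      have key1 : (∃ a, Sum.inl (Sum.inl a) ∈ s) → ∀ a, Sum.inl (Sum.inl a) ∈ s := by
        rintro ⟨a, ha⟩
        have := M₁.conn {c | Sum.inl (Sum.inl c) ∈ s} ⟨a, ha⟩ (by
          intro c hc
          have h1 := hcl _ hc
          refine ⟨?_, ?_⟩
          · by_cases hx : c = x₁
            · have h2 := h1.1
              rw [hx, jRot_l'] at h2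
              have h3 := (hcl _ h2).1
              rw [jRot_f] at h3
              rw [hx]
              exact h3
            · have h2 := h1.1
              rw [jRot_l _ _ _ _ _ hx] at h2
              exact h2
          · have h2 := h1.2
            rw [jRev_l] at h2
            exact h2)
        intro c
        have hc : c ∈ (Set.univ : Set M₁.D) := Set.mem_univ _
        rw [← this] at hc
        exact hc
      have key2 : (∃ a, Sum.inl (Sum.inr a) ∈ s) → ∀ a, Sum.inl (Sum.inr a) ∈ s := by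
        rintro ⟨a, ha⟩
        have := M₂.conn {c | Sum.inl (Sum.inr c) ∈ s} ⟨a, ha⟩ (by
          intro c hc
          have h1 := hcl _ hc
          refine ⟨?_, ?_⟩
          · by_cases hx : c = x₂
            · have h2 := h1.1
              rw [hx, jRot_r'] at h2
              have h3 := (hcl _ h2).1
              rw [jRot_t] at h3
              rw [hx]
              exact h3
            · have h2 := h1.1
              rw [jRot_r _ _ _ _ _ hx] at h2
              exact h2
          · have h2 := h1.2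
            rw [jRev_r] at h2
            exact h2)
        intro c
        have hc : c ∈ (Set.univ : Set M₂.D) := Set.mem_univ _
        rw [← this] at hc
        exact hc
      have f1 : (∀ a, Sum.inl (Sum.inl a) ∈ s) → Sum.inr false ∈ s := by
        intro h
        have := (hcl _ (h x₁)).1
        rw [jRot_l'] at this
        exact this
      have f2 : (∀ a, Sum.inl (Sum.inr a) ∈ s) → Sum.inr true ∈ s := by
        intro h
        have := (hcl _ (h x₂)).1
        rw [jRot_r'] at this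
        exact this
      have g1 : Sum.inr false ∈ s → (∀ a, Sum.inl (Sum.inl a) ∈ s) ∧ Sum.inr true ∈ s := by
        intro h
        have h1 := hcl _ h
        rw [jRot_f, jRev_b] at h1
        exact ⟨key1 ⟨_, h1.1⟩, h1.2⟩
      have g2 : Sum.inr true ∈ s → (∀ a, Sum.inl (Sum.inr a) ∈ s) ∧ Sum.inr false ∈ s := by
        intro h
        have h1 := hcl _ h
        rw [jRot_t, jRev_b] at h1
        exact ⟨key2 ⟨_, h1.1⟩, h1.2⟩
      have hf : Sum.inr false ∈ s := by
        obtain ⟨((a | a) | a), ha⟩ := hs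
        · exact f1 (key1 ⟨a, ha⟩)
        · exact (g2 (f2 (key2 ⟨a, ha⟩))).2
        · cases a
          · exact ha
          · exact (g2 ha).2
      have h1 := g1 hf
      have h2 := g2 h1.2
      ext d
      constructor
      · intro _; exact Set.mem_univ _
      · intro _
        rcases d with ((a | a) | a)
        · exact h1.1 a
        · exact h2.1 a
        · cases a
          · exact hf
          · exact h1.2 }

theorem joinMap_euler (M₁ M₂ : SurfaceMap) (x₁ : M₁.D) (x₂ : M₂.D) :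
    (joinMap M₁ M₂ x₁ x₂).euler = M₁.euler + M₂.euler - 2 := by
  letI := M₁.fin
  letI := M₂.fin
  letI := Classical.decEq M₁.D
  letI := Classical.decEq M₂.D
  have h := jData M₁.rot M₁.rev M₂.rot M₂.rev x₁ x₂
  have e1 : numOrbits (jRot M₁.rot M₂.rot x₁ x₂) + 2 =
      numOrbits (Perm.sumCongr (Perm.sumCongr M₁.rot M₂.rot) (1 : Perm Bool)) := h.orb_rot
  have e2 : numOrbits (jRev M₁.rev M₂.rev) + 1 =
      numOrbits (Perm.sumCongr (Perm.sumCongr M₁.rev M₂.rev) (1 : Perm Bool)) := h.orb_rev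
  have e3 : numOrbits (jRot M₁.rot M₂.rot x₁ x₂ * jRev M₁.rev M₂.rev) + 3 =
      numOrbits (Perm.sumCongr (Perm.sumCongr M₁.rot M₂.rot) (1 : Perm Bool) *
        Perm.sumCongr (Perm.sumCongr M₁.rev M₂.rev) (1 : Perm Bool)) := h.orb_face
  rw [Perm.sumCongr_mul, Perm.sumCongr_mul, mul_one, numOrbits_sumCongr, numOrbits_sumCongr,
    numOrbits_one] at e3
  rw [numOrbits_sumCongr, numOrbits_sumCongr, numOrbits_one] at e1 e2
  rw [Fintype.card_bool] at e1 e2 e3
  have e4 : (joinMap M₁ M₂ x₁ x₂).euler = (numOrbits (jRot M₁.rot M₂.rot x₁ x₂) : ℤ) -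
      (numOrbits (jRev M₁.rev M₂.rev) : ℤ) +
      (numOrbits (jRot M₁.rot M₂.rot x₁ x₂ * jRev M₁.rev M₂.rev) : ℤ) := rfl
  have e5 : M₁.euler = (numOrbits M₁.rot : ℤ) - (numOrbits M₁.rev : ℤ) +
    (numOrbits (M₁.rot * M₁.rev) : ℤ) := rfl
  have e6 : M₂.euler = (numOrbits M₂.rot : ℤ) - (numOrbits M₂.rev : ℤ) +
    (numOrbits (M₂.rot * M₂.rev) : ℤ) := rfl
  rw [e4, e5, e6]
  omega

theorem joinMap_ins₁ (M₁ M₂ : SurfaceMap) (x₁ : M₁.D) (x₂ : M₂.D) :
    Ins M₁ (joinMap M₁ M₂ x₁ x₂) (fun c => Sum.inl (Sum.inl c)) x₁ (Sum.inr false) := by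
  letI := Classical.decEq M₁.D
  letI := Classical.decEq M₂.D
  exact
  { inj := Sum.inl_injective.comp Sum.inl_injective
    ne := fun c => Sum.inl_ne_inr
    rot_ne := fun c hc => jRot_l _ _ _ _ c hc
    rot_x := jRot_l' _ _ _ _
    rot_β := jRot_f _ _ _ _
    rev := fun c => jRev_l _ _ c
    rev_β := fun c hc => by
      have h1 : (joinMap M₁ M₂ x₁ x₂).rev (Sum.inr false) = Sum.inr true := jRev_b _ _ false
      exact Sum.inr_ne_inl (h1.symm.trans hc) }

theorem joinMap_ins₂ (M₁ M₂ : SurfaceMap) (x₁ : M₁.D) (x₂ : M₂.D) :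
    Ins M₂ (joinMap M₁ M₂ x₁ x₂) (fun c => Sum.inl (Sum.inr c)) x₂ (Sum.inr true) := by
  letI := Classical.decEq M₁.D
  letI := Classical.decEq M₂.D
  exact
  { inj := Sum.inl_injective.comp Sum.inr_injective
    ne := fun c => Sum.inl_ne_inr
    rot_ne := fun c hc => jRot_r _ _ _ _ c hc
    rot_x := jRot_r' _ _ _ _
    rot_β := jRot_t _ _ _ _
    rev := fun c => jRev_r _ _ c
    rev_β := fun c hc => by
      have h1 : (joinMap M₁ M₂ x₁ x₂).rev (Sum.inr true) = Sum.inr false := jRev_b _ _ true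
      exact Sum.inr_ne_inl (h1.symm.trans hc) }

end Pool.Agent.KS6_63.HT3
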