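import Pool.Agent.KS6_63.HT3.Join

/-! # The drawing of two graphs joined by an edge -/

set_option autoImplicit false

namespace Pool.Agent.KS6_63.HT3

open Equiv Pool.Agent.KS6_63.HT Pool.Agent.KS6_63.HT2 Module

section darts

variable {M₁ M₂ : SurfaceMap} {x₁ : M₁.D} {x₂ : M₂.D}

/-- a dart of the first map -/
def jl (d : M₁.D) : (joinMap M₁ M₂ x₁ x₂).D := (Sum.inl (Sum.inl d) : (M₁.D ⊕ M₂.D) ⊕ Bool)
/-- a dart of the second map -/
def jr (d : M₂.D) : (joinMap M₁ M₂ x₁ x₂).D := (Sum.inl (Sum.inr d) : (M₁.D ⊕ M₂.D) ⊕ Bool)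
/-- the dart from the first map to the second -/
def jf : (joinMap M₁ M₂ x₁ x₂).D := (Sum.inr false : (M₁.D ⊕ M₂.D) ⊕ Bool)
/-- the dart from the second map to the first -/
def jt : (joinMap M₁ M₂ x₁ x₂).D := (Sum.inr true : (M₁.D ⊕ M₂.D) ⊕ Bool)

theorem jcases (d : (joinMap M₁ M₂ x₁ x₂).D) :
    (∃ c, d = jl c) ∨ (∃ c, d = jr c) ∨ d = jf ∨ d = jt := by
  rcases (d : (M₁.D ⊕ M₂.D) ⊕ Bool) with ((c | c) | (_ | _))
  · exact Or.inl ⟨c, rfl⟩
  · exact Or.inr (Or.inl ⟨c, rfl⟩)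
  · exact Or.inr (Or.inr (Or.inl rfl))
  · exact Or.inr (Or.inr (Or.inr rfl))

/-- definition of functions on the darts of the join -/
def jelim {α : Type} (f : M₁.D → α) (g : M₂.D → α) (u v : α) (d : (joinMap M₁ M₂ x₁ x₂).D) : α :=
  Sum.elim (Sum.elim f g) (fun b => cond b v u) (d : (M₁.D ⊕ M₂.D) ⊕ Bool)

section
variable {α : Type} (f : M₁.D → α) (g : M₂.D → α) (u v : α)
theorem jelim_l (d : M₁.D) : jelim f g u v (jl d : (joinMap M₁ M₂ x₁ x₂).D) = f d := rfl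
theorem jelim_r (d : M₂.D) : jelim f g u v (jr d : (joinMap M₁ M₂ x₁ x₂).D) = g d := rfl
theorem jelim_f : jelim f g u v (jf : (joinMap M₁ M₂ x₁ x₂).D) = u := rfl
theorem jelim_t : jelim f g u v (jt : (joinMap M₁ M₂ x₁ x₂).D) = v := rfl
end

theorem ins₁ (M₁ M₂ : SurfaceMap) (x₁ : M₁.D) (x₂ : M₂.D) :
    Ins M₁ (joinMap M₁ M₂ x₁ x₂) jl x₁ jf := joinMap_ins₁ M₁ M₂ x₁ x₂

theorem ins₂ (M₁ M₂ : SurfaceMap) (x₁ : M₁.D) (x₂ : M₂.D) :
    Ins M₂ (joinMap M₁ M₂ x₁ x₂) jr x₂ jt := joinMap_ins₂ M₁ M₂ x₁ x₂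

theorem rev_jf : (joinMap M₁ M₂ x₁ x₂).rev jf = jt := by
  letI := Classical.decEq M₁.D
  letI := Classical.decEq M₂.D
  exact jRev_b M₁.rev M₂.rev false

theorem rev_jt : (joinMap M₁ M₂ x₁ x₂).rev jt = jf := by
  letI := Classical.decEq M₁.D
  letI := Classical.decEq M₂.D
  exact jRev_b M₁.rev M₂.rev true

theorem rev_jl (c : M₁.D) : (joinMap M₁ M₂ x₁ x₂).rev (jl c) = jl (M₁.rev c) :=
  (ins₁ M₁ M₂ x₁ x₂).rev c

theorem rev_jr (c : M₂.D) : (joinMap M₁ M₂ x₁ x₂).rev (jr c) = jr (M₂.rev c) :=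
  (ins₂ M₁ M₂ x₁ x₂).rev c

theorem rot_jl {c : M₁.D} (h : c ≠ x₁) : (joinMap M₁ M₂ x₁ x₂).rot (jl c) = jl (M₁.rot c) :=
  (ins₁ M₁ M₂ x₁ x₂).rot_ne c h

theorem rot_jl' : (joinMap M₁ M₂ x₁ x₂).rot (jl x₁) = jf := (ins₁ M₁ M₂ x₁ x₂).rot_x

theorem rot_jf : (joinMap M₁ M₂ x₁ x₂).rot jf = jl (M₁.rot x₁) := (ins₁ M₁ M₂ x₁ x₂).rot_β

theorem rot_jr {c : M₂.D} (h : c ≠ x₂) : (joinMap M₁ M₂ x₁ x₂).rot (jr c) = jr (M₂.rot c) :=
  (ins₂ M₁ M₂ x₁ x₂).rot_ne c h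

theorem rot_jr' : (joinMap M₁ M₂ x₁ x₂).rot (jr x₂) = jt := (ins₂ M₁ M₂ x₁ x₂).rot_x

theorem rot_jt : (joinMap M₁ M₂ x₁ x₂).rot jt = jr (M₂.rot x₂) := (ins₂ M₁ M₂ x₁ x₂).rot_β

theorem jl_inj : Function.Injective (jl : M₁.D → (joinMap M₁ M₂ x₁ x₂).D) :=
  (ins₁ M₁ M₂ x₁ x₂).inj

theorem jr_inj : Function.Injective (jr : M₂.D → (joinMap M₁ M₂ x₁ x₂).D) :=
  (ins₂ M₁ M₂ x₁ x₂).inj

theorem jl_ne_jr (c : M₁.D) (c' : M₂.D) : (jl c : (joinMap M₁ M₂ x₁ x₂).D) ≠ jr c' := by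
  intro h
  have h1 : (Sum.inl (Sum.inl c) : (M₁.D ⊕ M₂.D) ⊕ Bool) = Sum.inl (Sum.inr c') := h
  exact Sum.inl_ne_inr (Sum.inl_injective h1)

end darts

/-- The disjoint union of the graphs `G` and `H` together with an edge from `a` to `b`. -/
def joinGraph {V W : Type} (G : SimpleGraph V) (H : SimpleGraph W) (a : V) (b : W) :
    SimpleGraph (V ⊕ W) where
  Adj
    | Sum.inl u, Sum.inl v => G.Adj u v
    | Sum.inr u, Sum.inr v => H.Adj u v
    | Sum.inl u, Sum.inr v => u = a ∧ v = b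
    | Sum.inr u, Sum.inl v => v = a ∧ u = b
  symm := ⟨by
    rintro (u | u) (v | v) h
    · exact SimpleGraph.Adj.symm (G := G) h
    · exact h
    · exact h
    · exact SimpleGraph.Adj.symm (G := H) h⟩
  loopless := ⟨by
    rintro (u | u) h
    · exact G.loopless.irrefl _ h
    · exact H.loopless.irrefl _ h⟩

section graph

variable {V W : Type} {G : SimpleGraph V} {H : SimpleGraph W} {a : V} {b : W}

theorem adj_ll {u v : V} : (joinGraph G H a b).Adj (Sum.inl u) (Sum.inl v) ↔ G.Adj u v := Iff.rfl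
theorem adj_rr {u v : W} : (joinGraph G H a b).Adj (Sum.inr u) (Sum.inr v) ↔ H.Adj u v := Iff.rfl
theorem adj_lr {u : V} {v : W} :
    (joinGraph G H a b).Adj (Sum.inl u) (Sum.inr v) ↔ u = a ∧ v = b := Iff.rfl
theorem adj_rl {u : W} {v : V} :
    (joinGraph G H a b).Adj (Sum.inr u) (Sum.inl v) ↔ v = a ∧ u = b := Iff.rfl

theorem joinGraph_connected (hG : G.Connected) (hH : H.Connected) :
    (joinGraph G H a b).Connected := by
  let f : G →g joinGraph G H a b := ⟨Sum.inl, fun h => h⟩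
  let g : H →g joinGraph G H a b := ⟨Sum.inr, fun h => h⟩
  have h1 : ∀ u, (joinGraph G H a b).Reachable (Sum.inl u) (Sum.inl a) := fun u =>
    (hG.preconnected u a).map f
  have h2 : ∀ u, (joinGraph G H a b).Reachable (Sum.inr u) (Sum.inr b) := fun u =>
    (hH.preconnected u b).map g
  have h3 : (joinGraph G H a b).Reachable (Sum.inr b) (Sum.inl a) :=
    SimpleGraph.Adj.reachable (adj_rl.2 ⟨rfl, rfl⟩)
  have hall : ∀ u, (joinGraph G H a b).Reachable u (Sum.inl a) := by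
    rintro (u | u)
    · exact h1 u
    · exact (h2 u).trans h3
  exact { preconnected := fun u v => (hall u).trans (hall v).symm, nonempty := ⟨Sum.inl a⟩ }

end graph

section drawing

variable {V W : Type} {G : SimpleGraph V} {H : SimpleGraph W}

/-- two drawings joined by an edge without crossings -/
noncomputable def joinDrawing (𝒟₁ : Drawing G) (𝒟₂ : Drawing H) (x₁ : 𝒟₁.D) (x₂ : 𝒟₂.D)
    (p₁ : 𝒟₁.pos x₁ = 0) (p₂ : 𝒟₂.pos x₂ = 0) :
    Drawing (joinGraph G H (𝒟₁.src x₁) (𝒟₂.src x₂)) where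
  toSurfaceMap := joinMap 𝒟₁.toSurfaceMap 𝒟₂.toSurfaceMap x₁ x₂
  src := jelim (fun c => Sum.inl (𝒟₁.src c)) (fun c => Sum.inr (𝒟₂.src c))
    (Sum.inl (𝒟₁.src x₁)) (Sum.inr (𝒟₂.src x₂))
  tgt := jelim (fun c => Sum.inl (𝒟₁.tgt c)) (fun c => Sum.inr (𝒟₂.tgt c))
    (Sum.inr (𝒟₂.src x₂)) (Sum.inl (𝒟₁.src x₁))
  pos := jelim (fun c => 𝒟₁.pos c) (fun c => 𝒟₂.pos c) 0 0
  adj := by
    intro d
    rcases jcases d with ⟨c, rfl⟩ | ⟨c, rfl⟩ | rfl | rfl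
    · exact adj_ll.2 (𝒟₁.adj c)
    · exact adj_rr.2 (𝒟₂.adj c)
    · exact adj_lr.2 ⟨rfl, rfl⟩
    · exact adj_rl.2 ⟨rfl, rfl⟩
  src_rev := by
    intro d
    rcases jcases d with ⟨c, rfl⟩ | ⟨c, rfl⟩ | rfl | rfl
    · rw [rev_jl, jelim_l, jelim_l, 𝒟₁.src_rev]
    · rw [rev_jr, jelim_r, jelim_r, 𝒟₂.src_rev]
    · rw [rev_jf, jelim_f, jelim_t]
    · rw [rev_jt, jelim_f, jelim_t]
  start := by
    rintro (u | u) (v | v) huv
    · obtain ⟨d, ⟨h1, h2, h3⟩, h4⟩ := 𝒟₁.start u v huv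
      refine ⟨jl d, ⟨?_, ?_, ?_⟩, ?_⟩
      · rw [jelim_l, h1]
      · rw [jelim_l, h2]
      · rw [jelim_l, h3]
      · intro d' hd'
        rcases jcases d' with ⟨c, rfl⟩ | ⟨c, rfl⟩ | rfl | rfl
        · rw [jelim_l, jelim_l, jelim_l] at hd'
          rw [h4 c ⟨Sum.inl_injective hd'.1, Sum.inl_injective hd'.2.1, hd'.2.2⟩]
        · rw [jelim_r] at hd'
          exact absurd hd'.1 Sum.inr_ne_inl
        · rw [jelim_f, jelim_f] at hd'
          exact absurd hd'.2.1 Sum.inr_ne_inl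
        · rw [jelim_t] at hd'
          exact absurd hd'.1 Sum.inr_ne_inl
    · obtain ⟨rfl, rfl⟩ := adj_lr.1 huv
      refine ⟨jf, ⟨?_, ?_, ?_⟩, ?_⟩
      · rw [jelim_f]
      · rw [jelim_f]
      · rw [jelim_f]
      · intro d' hd'
        rcases jcases d' with ⟨c, rfl⟩ | ⟨c, rfl⟩ | rfl | rfl
        · rw [jelim_l, jelim_l] at hd'
          exact absurd hd'.2.1 Sum.inl_ne_inr
        · rw [jelim_r] at hd'
          exact absurd hd'.1 Sum.inr_ne_inl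
        · rfl
        · rw [jelim_t] at hd'
          exact absurd hd'.1 Sum.inr_ne_inl
    · obtain ⟨rfl, rfl⟩ := adj_rl.1 huv
      refine ⟨jt, ⟨?_, ?_, ?_⟩, ?_⟩
      · rw [jelim_t]
      · rw [jelim_t]
      · rw [jelim_t]
      · intro d' hd'
        rcases jcases d' with ⟨c, rfl⟩ | ⟨c, rfl⟩ | rfl | rfl
        · rw [jelim_l] at hd'
          exact absurd hd'.1 Sum.inl_ne_inr
        · rw [jelim_r, jelim_r] at hd'
          exact absurd hd'.2.1 Sum.inr_ne_inl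
        · rw [jelim_f] at hd'
          exact absurd hd'.1 Sum.inl_ne_inr
        · rfl
    · obtain ⟨d, ⟨h1, h2, h3⟩, h4⟩ := 𝒟₂.start u v huv
      refine ⟨jr d, ⟨?_, ?_, ?_⟩, ?_⟩
      · rw [jelim_r, h1]
      · rw [jelim_r, h2]
      · rw [jelim_r, h3]
      · intro d' hd'
        rcases jcases d' with ⟨c, rfl⟩ | ⟨c, rfl⟩ | rfl | rfl
        · rw [jelim_l] at hd'
          exact absurd hd'.1 Sum.inl_ne_inr
        · rw [jelim_r, jelim_r, jelim_r] at hd'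
          rw [h4 c ⟨Sum.inr_injective hd'.1, Sum.inr_injective hd'.2.1, hd'.2.2⟩]
        · rw [jelim_f] at hd'
          exact absurd hd'.1 Sum.inl_ne_inr
        · rw [jelim_t, jelim_t] at hd'
          exact absurd hd'.2.1 Sum.inl_ne_inr
  vertex := by
    intro d hd
    rcases jcases d with ⟨c, rfl⟩ | ⟨c, rfl⟩ | rfl | rfl
    · rw [jelim_l] at hd
      by_cases hc : c = x₁
      · rw [hc, rot_jl', jelim_f, jelim_f, jelim_l]
        exact ⟨rfl, rfl⟩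
      · have := 𝒟₁.vertex c hd
        rw [rot_jl hc, jelim_l, jelim_l, jelim_l, this.1, this.2]
        exact ⟨rfl, rfl⟩
    · rw [jelim_r] at hd
      by_cases hc : c = x₂
      · rw [hc, rot_jr', jelim_t, jelim_t, jelim_r]
        exact ⟨rfl, rfl⟩
      · have := 𝒟₂.vertex c hd
        rw [rot_jr hc, jelim_r, jelim_r, jelim_r, this.1, this.2]
        exact ⟨rfl, rfl⟩
    · have := 𝒟₁.vertex x₁ p₁
      rw [rot_jf, jelim_l, jelim_l, jelim_f, this.1, this.2]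
      exact ⟨rfl, rfl⟩
    · have := 𝒟₂.vertex x₂ p₂
      rw [rot_jt, jelim_r, jelim_r, jelim_t, this.1, this.2]
      exact ⟨rfl, rfl⟩
  vertex_cyclic := by
    intro d d' hd hd' hs
    have i1 := ins₁ 𝒟₁.toSurfaceMap 𝒟₂.toSurfaceMap x₁ x₂
    have i2 := ins₂ 𝒟₁.toSurfaceMap 𝒟₂.toSurfaceMap x₁ x₂
    have ll : ∀ c c', 𝒟₁.pos c = 0 → 𝒟₁.pos c' = 0 → 𝒟₁.src c = 𝒟₁.src c' →
        (joinMap 𝒟₁.toSurfaceMap 𝒟₂.toSurfaceMap x₁ x₂).rot.SameCycle (jl c) (jl c') :=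
      fun c c' h1 h2 h3 => (i1.same_rot c c').2 (𝒟₁.vertex_cyclic c c' h1 h2 h3)
    have rr : ∀ c c', 𝒟₂.pos c = 0 → 𝒟₂.pos c' = 0 → 𝒟₂.src c = 𝒟₂.src c' →
        (joinMap 𝒟₁.toSurfaceMap 𝒟₂.toSurfaceMap x₁ x₂).rot.SameCycle (jr c) (jr c') :=
      fun c c' h1 h2 h3 => (i2.same_rot c c').2 (𝒟₂.vertex_cyclic c c' h1 h2 h3)
    have lf := i1.same_xβ
    have rt := i2.same_xβ
    rcases jcases d with ⟨c, rfl⟩ | ⟨c, rfl⟩ | rfl | rfl <;>
      rcases jcases d' with ⟨c', rfl⟩ | ⟨c', rfl⟩ | rfl | rfl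
    · exact ll c c' hd hd' (Sum.inl_injective hs)
    · exact absurd hs Sum.inl_ne_inr
    · exact (ll c x₁ hd p₁ (Sum.inl_injective hs)).trans lf
    · exact absurd hs Sum.inl_ne_inr
    · exact absurd hs Sum.inr_ne_inl
    · exact rr c c' hd hd' (Sum.inr_injective hs)
    · exact absurd hs Sum.inr_ne_inl
    · exact (rr c x₂ hd p₂ (Sum.inr_injective hs)).trans rt
    · exact lf.symm.trans (ll x₁ c' p₁ hd' (Sum.inl_injective hs))
    · exact absurd hs Sum.inl_ne_inr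
    · exact Perm.SameCycle.refl _ _
    · exact absurd hs Sum.inl_ne_inr
    · exact absurd hs Sum.inr_ne_inl
    · exact rt.symm.trans (rr x₂ c' p₂ hd' (Sum.inr_injective hs))
    · exact absurd hs Sum.inr_ne_inl
    · exact Perm.SameCycle.refl _ _
  cross := by
    intro d hd
    rcases jcases d with ⟨c, rfl⟩ | ⟨c, rfl⟩ | rfl | rfl
    · rw [jelim_l] at hd
      have n : ∀ c, 0 < 𝒟₁.pos c → c ≠ x₁ := by rintro c h rfl; omega
      have c1 := 𝒟₁.cross c hd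
      have c2 := 𝒟₁.cross _ c1.1
      have c3 := 𝒟₁.cross _ c2.1
      rw [rot_jl (n _ hd), rot_jl (n _ c1.1), rot_jl (n _ c2.1), rot_jl (n _ c3.1), jelim_l, c1.2]
      exact ⟨c1.1, rfl⟩
    · rw [jelim_r] at hd
      have n : ∀ c, 0 < 𝒟₂.pos c → c ≠ x₂ := by rintro c h rfl; omega
      have c1 := 𝒟₂.cross c hd
      have c2 := 𝒟₂.cross _ c1.1
      have c3 := 𝒟₂.cross _ c2.1
      rw [rot_jr (n _ hd), rot_jr (n _ c1.1), rot_jr (n _ c2.1), rot_jr (n _ c3.1), jelim_r, c1.2]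
      exact ⟨c1.1, rfl⟩
    · rw [jelim_f] at hd
      exact absurd hd (lt_irrefl 0)
    · rw [jelim_t] at hd
      exact absurd hd (lt_irrefl 0)
  cross_prev := by
    intro d hd
    rcases jcases d with ⟨c, rfl⟩ | ⟨c, rfl⟩ | rfl | rfl
    · rw [jelim_l] at hd
      have n : ∀ c, 0 < 𝒟₁.pos c → c ≠ x₁ := by rintro c h rfl; omega
      have c1 := 𝒟₁.cross c hd
      have c4 := 𝒟₁.cross_prev c hd
      rw [rot_jl (n _ hd), rot_jl (n _ c1.1), rev_jl, jelim_l, jelim_l, jelim_l, jelim_l, jelim_l,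
        jelim_l, c4.1, c4.2.1, c4.2.2]
      exact ⟨rfl, rfl, rfl⟩
    · rw [jelim_r] at hd
      have n : ∀ c, 0 < 𝒟₂.pos c → c ≠ x₂ := by rintro c h rfl; omega
      have c1 := 𝒟₂.cross c hd
      have c4 := 𝒟₂.cross_prev c hd
      rw [rot_jr (n _ hd), rot_jr (n _ c1.1), rev_jr, jelim_r, jelim_r, jelim_r, jelim_r, jelim_r,
        jelim_r, c4.1, c4.2.1, c4.2.2]
      exact ⟨rfl, rfl, rfl⟩
    · rw [jelim_f] at hd
      exact absurd hd (lt_irrefl 0)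
    · rw [jelim_t] at hd
      exact absurd hd (lt_irrefl 0)
  cross_ne := by
    intro d hd
    rcases jcases d with ⟨c, rfl⟩ | ⟨c, rfl⟩ | rfl | rfl
    · rw [jelim_l] at hd
      have hc : c ≠ x₁ := by rintro rfl; omega
      have c4 := 𝒟₁.cross_ne c hd
      rw [rot_jl hc, jelim_l, jelim_l, jelim_l, jelim_l]
      constructor
      · rintro ⟨h1, h2⟩
        exact c4.1 ⟨Sum.inl_injective h1, Sum.inl_injective h2⟩
      · rintro ⟨h1, h2⟩
        exact c4.2 ⟨Sum.inl_injective h1, Sum.inl_injective h2⟩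
    · rw [jelim_r] at hd
      have hc : c ≠ x₂ := by rintro rfl; omega
      have c4 := 𝒟₂.cross_ne c hd
      rw [rot_jr hc, jelim_r, jelim_r, jelim_r, jelim_r]
      constructor
      · rintro ⟨h1, h2⟩
        exact c4.1 ⟨Sum.inr_injective h1, Sum.inr_injective h2⟩
      · rintro ⟨h1, h2⟩
        exact c4.2 ⟨Sum.inr_injective h1, Sum.inr_injective h2⟩
    · rw [jelim_f] at hd
      exact absurd hd (lt_irrefl 0)
    · rw [jelim_t] at hd
      exact absurd hd (lt_irrefl 0)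

end drawing

end Pool.Agent.KS6_63.HT3
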