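import Pool.Agent.KS6_63.HT3.JoinD

/-! # Crossings and discs in the join of two drawings -/

set_option autoImplicit false

namespace Pool.Agent.KS6_63.HT3

open Equiv Pool.Agent.KS6_63.HT Pool.Agent.KS6_63.HT2 Module

/-- The number of crossings of the edge `uv` with the edge `u'v'`: the number of crossings at which
`uv` crosses `u'v'` from the left plus the number of those at which it does so from the right. -/
noncomputable def crossings {V : Type} {G : SimpleGraph V} (𝒟 : Drawing G) (u v u' v' : V) : ℕ :=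
  Nat.card (𝒟.leftCrossings u v u' v') + Nat.card (𝒟.leftCrossings u v v' u')

/-- Two edges without a common end cross either twice or not at all. -/
def IndepZeroTwo {V : Type} {G : SimpleGraph V} (𝒟 : Drawing G) : Prop :=
  ∀ u v u' v', G.Adj u v → G.Adj u' v' → Indep u v u' v' →
    crossings 𝒟 u v u' v' = 0 ∨ crossings 𝒟 u v u' v' = 2

/-- Two edges `uv`, `uv'` with a common end `u` cross at most once. -/
def AdjOnce {V : Type} {G : SimpleGraph V} (𝒟 : Drawing G) : Prop :=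
  ∀ u v v', G.Adj u v → G.Adj u v' → crossings 𝒟 u v u v' ≤ 1

/-- For any two edges with a common end there is a closed disc that contains their arcs and does
not contain the face of the corner after the dart `x`. -/
def DiscOK {V : Type} {G : SimpleGraph V} (𝒟 : Drawing G) (x : 𝒟.D) : Prop :=
  ∀ u v v', G.Adj u v → G.Adj u v' → ∃ Y : Subcomplex 𝒟.toSurfaceMap, Y.IsDisc ∧
    (∀ d, (𝒟.src d = u ∧ (𝒟.tgt d = v ∨ 𝒟.tgt d = v')) → d ∈ Y.es) ∧ 𝒟.rev x ∉ Y.fs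

theorem DiscOK.adjInDisc {V : Type} {G : SimpleGraph V} {𝒟 : Drawing G} {x : 𝒟.D}
    (h : DiscOK 𝒟 x) : AdjInDisc 𝒟 := by
  intro u v v' h1 h2 _
  obtain ⟨Y, h3, h4, _⟩ := h u v v' h1 h2
  exact ⟨Y, h3, h4⟩

theorem IndepZeroTwo.indepEven {V : Type} {G : SimpleGraph V} {𝒟 : Drawing G}
    (h : IndepZeroTwo 𝒟) : 𝒟.IndepEven := by
  intro u v u' v' h1 h2 h3
  have h4 : crossings 𝒟 u v u' v' =
    Nat.card (𝒟.leftCrossings u v u' v') + Nat.card (𝒟.leftCrossings u v v' u') := rfl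
  rw [← h4]
  rcases h u v u' v' h1 h2 h3 with h | h
  · rw [h]; exact ⟨0, rfl⟩
  · rw [h]; exact ⟨1, rfl⟩

section

variable {V W : Type} {G : SimpleGraph V} {H : SimpleGraph W} {𝒟₁ : Drawing G} {𝒟₂ : Drawing H}
  {x₁ : 𝒟₁.D} {x₂ : 𝒟₂.D} (p₁ : 𝒟₁.pos x₁ = 0) (p₂ : 𝒟₂.pos x₂ = 0)

theorem left_mem (d : (joinDrawing 𝒟₁ 𝒟₂ x₁ x₂ p₁ p₂).D) (u v u' v' : V ⊕ W) :
    d ∈ (joinDrawing 𝒟₁ 𝒟₂ x₁ x₂ p₁ p₂).leftCrossings u v u' v' ↔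
      (∃ c a b a' b', d = jl c ∧ u = Sum.inl a ∧ v = Sum.inl b ∧ u' = Sum.inl a' ∧
        v' = Sum.inl b' ∧ c ∈ 𝒟₁.leftCrossings a b a' b') ∨
      (∃ c a b a' b', d = jr c ∧ u = Sum.inr a ∧ v = Sum.inr b ∧ u' = Sum.inr a' ∧
        v' = Sum.inr b' ∧ c ∈ 𝒟₂.leftCrossings a b a' b') := by
  constructor
  · rintro ⟨h1, h2, h3, h4, h5⟩
    rcases jcases d with ⟨c, rfl⟩ | ⟨c, rfl⟩ | rfl | rfl
    · left
      have h1' : 0 < 𝒟₁.pos c := h1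
      have hc : c ≠ x₁ := by rintro rfl; omega
      have hr := rot_jl (M₂ := 𝒟₂.toSurfaceMap) (x₂ := x₂) hc
      have h4' : jelim (fun c => Sum.inl (𝒟₁.src c)) (fun c => Sum.inr (𝒟₂.src c))
        (Sum.inl (𝒟₁.src x₁)) (Sum.inr (𝒟₂.src x₂))
        ((joinMap 𝒟₁.toSurfaceMap 𝒟₂.toSurfaceMap x₁ x₂).rot (jl c)) = u' := h4
      have h5' : jelim (fun c => Sum.inl (𝒟₁.tgt c)) (fun c => Sum.inr (𝒟₂.tgt c))
        (Sum.inr (𝒟₂.src x₂)) (Sum.inl (𝒟₁.src x₁))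
        ((joinMap 𝒟₁.toSurfaceMap 𝒟₂.toSurfaceMap x₁ x₂).rot (jl c)) = v' := h5
      rw [hr, jelim_l] at h4' h5'
      exact ⟨c, _, _, _, _, rfl, h2.symm, h3.symm, h4'.symm, h5'.symm, h1, rfl, rfl, rfl, rfl⟩
    · right
      have h1' : 0 < 𝒟₂.pos c := h1
      have hc : c ≠ x₂ := by rintro rfl; omega
      have hr := rot_jr (M₁ := 𝒟₁.toSurfaceMap) (x₁ := x₁) hc
      have h4' : jelim (fun c => Sum.inl (𝒟₁.src c)) (fun c => Sum.inr (𝒟₂.src c))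
        (Sum.inl (𝒟₁.src x₁)) (Sum.inr (𝒟₂.src x₂))
        ((joinMap 𝒟₁.toSurfaceMap 𝒟₂.toSurfaceMap x₁ x₂).rot (jr c)) = u' := h4
      have h5' : jelim (fun c => Sum.inl (𝒟₁.tgt c)) (fun c => Sum.inr (𝒟₂.tgt c))
        (Sum.inr (𝒟₂.src x₂)) (Sum.inl (𝒟₁.src x₁))
        ((joinMap 𝒟₁.toSurfaceMap 𝒟₂.toSurfaceMap x₁ x₂).rot (jr c)) = v' := h5
      rw [hr, jelim_r] at h4' h5'
      exact ⟨c, _, _, _, _, rfl, h2.symm, h3.symm, h4'.symm, h5'.symm, h1, rfl, rfl, rfl, rfl⟩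
    · exact absurd h1 (lt_irrefl 0)
    · exact absurd h1 (lt_irrefl 0)
  · rintro (⟨c, a, b, a', b', rfl, rfl, rfl, rfl, rfl, h1, h2, h3, h4, h5⟩ |
      ⟨c, a, b, a', b', rfl, rfl, rfl, rfl, rfl, h1, h2, h3, h4, h5⟩)
    · have hc : c ≠ x₁ := by rintro rfl; omega
      have hr := rot_jl (M₂ := 𝒟₂.toSurfaceMap) (x₂ := x₂) hc
      refine ⟨h1, congrArg Sum.inl h2, congrArg Sum.inl h3, ?_, ?_⟩
      · change jelim (fun c => Sum.inl (𝒟₁.src c)) (fun c => Sum.inr (𝒟₂.src c))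
          (Sum.inl (𝒟₁.src x₁)) (Sum.inr (𝒟₂.src x₂))
          ((joinMap 𝒟₁.toSurfaceMap 𝒟₂.toSurfaceMap x₁ x₂).rot (jl c)) = _
        rw [hr, jelim_l, h4]
      · change jelim (fun c => Sum.inl (𝒟₁.tgt c)) (fun c => Sum.inr (𝒟₂.tgt c))
          (Sum.inr (𝒟₂.src x₂)) (Sum.inl (𝒟₁.src x₁))
          ((joinMap 𝒟₁.toSurfaceMap 𝒟₂.toSurfaceMap x₁ x₂).rot (jl c)) = _
        rw [hr, jelim_l, h5]
    · have hc : c ≠ x₂ := by rintro rfl; omega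
      have hr := rot_jr (M₁ := 𝒟₁.toSurfaceMap) (x₁ := x₁) hc
      refine ⟨h1, congrArg Sum.inr h2, congrArg Sum.inr h3, ?_, ?_⟩
      · change jelim (fun c => Sum.inl (𝒟₁.src c)) (fun c => Sum.inr (𝒟₂.src c))
          (Sum.inl (𝒟₁.src x₁)) (Sum.inr (𝒟₂.src x₂))
          ((joinMap 𝒟₁.toSurfaceMap 𝒟₂.toSurfaceMap x₁ x₂).rot (jr c)) = _
        rw [hr, jelim_r, h4]
      · change jelim (fun c => Sum.inl (𝒟₁.tgt c)) (fun c => Sum.inr (𝒟₂.tgt c))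
          (Sum.inr (𝒟₂.src x₂)) (Sum.inl (𝒟₁.src x₁))
          ((joinMap 𝒟₁.toSurfaceMap 𝒟₂.toSurfaceMap x₁ x₂).rot (jr c)) = _
        rw [hr, jelim_r, h5]

theorem left_l (a b a' b' : V) :
    Nat.card ((joinDrawing 𝒟₁ 𝒟₂ x₁ x₂ p₁ p₂).leftCrossings (Sum.inl a) (Sum.inl b)
      (Sum.inl a') (Sum.inl b')) = Nat.card (𝒟₁.leftCrossings a b a' b') := by
  have : (joinDrawing 𝒟₁ 𝒟₂ x₁ x₂ p₁ p₂).leftCrossings (Sum.inl a) (Sum.inl b)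
      (Sum.inl a') (Sum.inl b') = jl '' (𝒟₁.leftCrossings a b a' b') := by
    ext d
    rw [left_mem]
    constructor
    · rintro (⟨c, a, b, a', b', rfl, h1, h2, h3, h4, h5⟩ | ⟨c, a, b, a', b', rfl, h1, _⟩)
      · rw [Sum.inl_injective h1, Sum.inl_injective h2, Sum.inl_injective h3,
          Sum.inl_injective h4]
        exact ⟨c, h5, rfl⟩
      · exact absurd h1 Sum.inl_ne_inr
    · rintro ⟨c, hc, rfl⟩
      exact Or.inl ⟨c, a, b, a', b', rfl, rfl, rfl, rfl, rfl, hc⟩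
  rw [this]
  exact Nat.card_image_of_injective jl_inj _

theorem left_r (a b a' b' : W) :
    Nat.card ((joinDrawing 𝒟₁ 𝒟₂ x₁ x₂ p₁ p₂).leftCrossings (Sum.inr a) (Sum.inr b)
      (Sum.inr a') (Sum.inr b')) = Nat.card (𝒟₂.leftCrossings a b a' b') := by
  have : (joinDrawing 𝒟₁ 𝒟₂ x₁ x₂ p₁ p₂).leftCrossings (Sum.inr a) (Sum.inr b)
      (Sum.inr a') (Sum.inr b') = jr '' (𝒟₂.leftCrossings a b a' b') := by
    ext d
    rw [left_mem]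
    constructor
    · rintro (⟨c, a, b, a', b', rfl, h1, _⟩ | ⟨c, a, b, a', b', rfl, h1, h2, h3, h4, h5⟩)
      · exact absurd h1 Sum.inr_ne_inl
      · rw [Sum.inr_injective h1, Sum.inr_injective h2, Sum.inr_injective h3,
          Sum.inr_injective h4]
        exact ⟨c, h5, rfl⟩
    · rintro ⟨c, hc, rfl⟩
      exact Or.inr ⟨c, a, b, a', b', rfl, rfl, rfl, rfl, rfl, hc⟩
  rw [this]
  exact Nat.card_image_of_injective jr_inj _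

theorem left_zero (u v u' v' : V ⊕ W)
    (h1 : ¬ ∃ a b a' b', u = Sum.inl a ∧ v = Sum.inl b ∧ u' = Sum.inl a' ∧ v' = Sum.inl b')
    (h2 : ¬ ∃ a b a' b', u = Sum.inr a ∧ v = Sum.inr b ∧ u' = Sum.inr a' ∧ v' = Sum.inr b') :
    Nat.card ((joinDrawing 𝒟₁ 𝒟₂ x₁ x₂ p₁ p₂).leftCrossings u v u' v') = 0 := by
  have : (joinDrawing 𝒟₁ 𝒟₂ x₁ x₂ p₁ p₂).leftCrossings u v u' v' = ∅ := by
    rw [Set.eq_empty_iff_forall_notMem]
    intro d hd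
    rw [left_mem] at hd
    rcases hd with ⟨c, a, b, a', b', _, k1, k2, k3, k4, _⟩ | ⟨c, a, b, a', b', _, k1, k2, k3, k4, _⟩
    · exact h1 ⟨a, b, a', b', k1, k2, k3, k4⟩
    · exact h2 ⟨a, b, a', b', k1, k2, k3, k4⟩
  rw [this]
  exact Nat.card_of_isEmpty

theorem cross_zero (u v u' v' : V ⊕ W)
    (h1 : ¬ ∃ a b a' b', u = Sum.inl a ∧ v = Sum.inl b ∧ u' = Sum.inl a' ∧ v' = Sum.inl b')
    (h2 : ¬ ∃ a b a' b', u = Sum.inr a ∧ v = Sum.inr b ∧ u' = Sum.inr a' ∧ v' = Sum.inr b') :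
    crossings (joinDrawing 𝒟₁ 𝒟₂ x₁ x₂ p₁ p₂) u v u' v' = 0 := by
  have e1 := left_zero p₁ p₂ u v u' v' h1 h2
  have e2 := left_zero p₁ p₂ u v v' u'
    (fun ⟨a, b, a', b', k1, k2, k3, k4⟩ => h1 ⟨a, b, b', a', k1, k2, k4, k3⟩)
    (fun ⟨a, b, a', b', k1, k2, k3, k4⟩ => h2 ⟨a, b, b', a', k1, k2, k4, k3⟩)
  rw [crossings, e1, e2]

theorem cross_l (a b a' b' : V) :
    crossings (joinDrawing 𝒟₁ 𝒟₂ x₁ x₂ p₁ p₂) (Sum.inl a) (Sum.inl b) (Sum.inl a') (Sum.inl b') =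
      crossings 𝒟₁ a b a' b' := by
  rw [crossings, crossings, left_l, left_l]

theorem cross_r (a b a' b' : W) :
    crossings (joinDrawing 𝒟₁ 𝒟₂ x₁ x₂ p₁ p₂) (Sum.inr a) (Sum.inr b) (Sum.inr a') (Sum.inr b') =
      crossings 𝒟₂ a b a' b' := by
  rw [crossings, crossings, left_r, left_r]

theorem join_indep (h₁ : IndepZeroTwo 𝒟₁) (h₂ : IndepZeroTwo 𝒟₂) :
    IndepZeroTwo (joinDrawing 𝒟₁ 𝒟₂ x₁ x₂ p₁ p₂) := by
  intro u v u' v' a1 a2 hi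
  by_cases c1 : ∃ a b a' b', u = Sum.inl a ∧ v = Sum.inl b ∧ u' = Sum.inl a' ∧ v' = Sum.inl b'
  · obtain ⟨a, b, a', b', rfl, rfl, rfl, rfl⟩ := c1
    rw [cross_l]
    exact h₁ a b a' b' a1 a2 ⟨fun h => hi.1 (congrArg _ h), fun h => hi.2.1 (congrArg _ h),
      fun h => hi.2.2.1 (congrArg _ h), fun h => hi.2.2.2 (congrArg _ h)⟩
  by_cases c2 : ∃ a b a' b', u = Sum.inr a ∧ v = Sum.inr b ∧ u' = Sum.inr a' ∧ v' = Sum.inr b'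
  · obtain ⟨a, b, a', b', rfl, rfl, rfl, rfl⟩ := c2
    rw [cross_r]
    exact h₂ a b a' b' a1 a2 ⟨fun h => hi.1 (congrArg _ h), fun h => hi.2.1 (congrArg _ h),
      fun h => hi.2.2.1 (congrArg _ h), fun h => hi.2.2.2 (congrArg _ h)⟩
  exact Or.inl (cross_zero p₁ p₂ u v u' v' c1 c2)

theorem join_adj (h₁ : AdjOnce 𝒟₁) (h₂ : AdjOnce 𝒟₂) :
    AdjOnce (joinDrawing 𝒟₁ 𝒟₂ x₁ x₂ p₁ p₂) := by
  intro u v v' a1 a2
  by_cases c1 : ∃ a b a' b', u = Sum.inl a ∧ v = Sum.inl b ∧ u = Sum.inl a' ∧ v' = Sum.inl b'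
  · obtain ⟨a, b, a', b', rfl, rfl, h3, rfl⟩ := c1
    rw [cross_l]
    exact h₁ a b b' a1 a2
  by_cases c2 : ∃ a b a' b', u = Sum.inr a ∧ v = Sum.inr b ∧ u = Sum.inr a' ∧ v' = Sum.inr b'
  · obtain ⟨a, b, a', b', rfl, rfl, h3, rfl⟩ := c2
    rw [cross_r]
    exact h₂ a b b' a1 a2
  rw [cross_zero p₁ p₂ u v u v' c1 c2]
  exact Nat.zero_le _

/-- the darts at the vertices of the first graph -/
def isL {M₁ M₂ : SurfaceMap} {x₁ : M₁.D} {x₂ : M₂.D} (d : (joinMap M₁ M₂ x₁ x₂).D) : Prop :=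
  jelim (fun _ => True) (fun _ => False) True False d

theorem isL_rot {M₁ M₂ : SurfaceMap} {x₁ : M₁.D} {x₂ : M₂.D} (d : (joinMap M₁ M₂ x₁ x₂).D) :
    isL ((joinMap M₁ M₂ x₁ x₂).rot d) ↔ isL d := by
  rcases jcases d with ⟨c, rfl⟩ | ⟨c, rfl⟩ | rfl | rfl
  · by_cases hc : c = x₁
    · rw [hc, rot_jl']
      exact Iff.rfl
    · rw [rot_jl hc]
      exact Iff.rfl
  · by_cases hc : c = x₂
    · rw [hc, rot_jr']
      exact Iff.rfl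
    · rw [rot_jr hc]
      exact Iff.rfl
  · rw [rot_jf]
    exact Iff.rfl
  · rw [rot_jt]
    exact Iff.rfl

theorem not_same_l {M₁ M₂ : SurfaceMap} {x₁ : M₁.D} {x₂ : M₂.D} (c : M₁.D) :
    ¬ (joinMap M₁ M₂ x₁ x₂).rot.SameCycle ((joinMap M₁ M₂ x₁ x₂).rev jf) (jl c) := by
  rw [rev_jf, sameCycle_iff_inv]
  intro h
  exact (h isL isL_rot).2 trivial

theorem not_same_r {M₁ M₂ : SurfaceMap} {x₁ : M₁.D} {x₂ : M₂.D} (c : M₂.D) :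
    ¬ (joinMap M₁ M₂ x₁ x₂).rot.SameCycle ((joinMap M₁ M₂ x₁ x₂).rev jt) (jr c) := by
  rw [rev_jt, sameCycle_iff_inv]
  intro h
  exact (h isL isL_rot).1 trivial

theorem mem_vs {𝒟 : Drawing G} {x : 𝒟.D} (px : 𝒟.pos x = 0) {v v' : V}
    (hv : G.Adj (𝒟.src x) v) {Y : Subcomplex 𝒟.toSurfaceMap}
    (hY : ∀ d, (𝒟.src d = 𝒟.src x ∧ (𝒟.tgt d = v ∨ 𝒟.tgt d = v')) → d ∈ Y.es) : x ∈ Y.vs := by
  have := 𝒟.fin
  obtain ⟨d, ⟨h1, h2, h3⟩, _⟩ := 𝒟.start _ v hv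
  have h4 : d ∈ Y.vs := Y.es_vs _ (hY d ⟨h1, Or.inl h2⟩)
  exact closed_same Y.vs_rot (𝒟.vertex_cyclic d x h3 px h1) h4

theorem join_disc (h₁ : DiscOK 𝒟₁ x₁) (h₂ : DiscOK 𝒟₂ x₂) :
    DiscOK (joinDrawing 𝒟₁ 𝒟₂ x₁ x₂ p₁ p₂) (jl x₁) := by
  have i1 := ins₁ 𝒟₁.toSurfaceMap 𝒟₂.toSurfaceMap x₁ x₂
  have i2 := ins₂ 𝒟₁.toSurfaceMap 𝒟₂.toSurfaceMap x₁ x₂
  have hx1 : G.Adj (𝒟₁.src x₁) (𝒟₁.tgt x₁) := 𝒟₁.adj x₁
  have hx2 : H.Adj (𝒟₂.src x₂) (𝒟₂.tgt x₂) := 𝒟₂.adj x₂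
  -- discs with the new edge
  have key1 : ∀ v, G.Adj (𝒟₁.src x₁) v → ∃ Y : Subcomplex
      (joinMap 𝒟₁.toSurfaceMap 𝒟₂.toSurfaceMap x₁ x₂), Y.IsDisc ∧
      (∀ c, 𝒟₁.src c = 𝒟₁.src x₁ → 𝒟₁.tgt c = v → jl c ∈ Y.es) ∧ jf ∈ Y.es ∧
      (joinMap 𝒟₁.toSurfaceMap 𝒟₂.toSurfaceMap x₁ x₂).rev (jl x₁) ∉ Y.fs := by
    intro v hv
    obtain ⟨Y, y1, y2, y3⟩ := h₁ _ v v hv hv
    have y4 : x₁ ∈ Y.vs := mem_vs p₁ hv y2
    refine ⟨i1.ext Y y3 y4, i1.ext_isDisc y3 y4 y1 not_same_l, ?_, ?_, ?_⟩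
    · intro c k1 k2
      exact Or.inl ⟨c, y2 c ⟨k1, Or.inl k2⟩, rfl⟩
    · exact Or.inr (Or.inl rfl)
    · rw [rev_jl]
      rintro ⟨c, hc, he⟩
      apply y3
      rw [jl_inj he]
      exact hc
  have key2 : ∀ v, H.Adj (𝒟₂.src x₂) v → ∃ Y : Subcomplex
      (joinMap 𝒟₁.toSurfaceMap 𝒟₂.toSurfaceMap x₁ x₂), Y.IsDisc ∧
      (∀ c, 𝒟₂.src c = 𝒟₂.src x₂ → 𝒟₂.tgt c = v → jr c ∈ Y.es) ∧ jt ∈ Y.es ∧
      (joinMap 𝒟₁.toSurfaceMap 𝒟₂.toSurfaceMap x₁ x₂).rev (jl x₁) ∉ Y.fs := by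
    intro v hv
    obtain ⟨Y, y1, y2, y3⟩ := h₂ _ v v hv hv
    have y4 : x₂ ∈ Y.vs := mem_vs p₂ hv y2
    refine ⟨i2.ext Y y3 y4, i2.ext_isDisc y3 y4 y1 not_same_r, ?_, ?_, ?_⟩
    · intro c k1 k2
      exact Or.inl ⟨c, y2 c ⟨k1, Or.inl k2⟩, rfl⟩
    · exact Or.inr (Or.inl rfl)
    · rw [rev_jl]
      rintro ⟨c, hc, he⟩
      exact jl_ne_jr _ _ he
  -- the general case
  have gen1 : ∀ u v v', G.Adj u v → G.Adj u v' → ∃ Y : Subcomplex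
      (joinMap 𝒟₁.toSurfaceMap 𝒟₂.toSurfaceMap x₁ x₂), Y.IsDisc ∧
      (∀ c, 𝒟₁.src c = u → (𝒟₁.tgt c = v ∨ 𝒟₁.tgt c = v') → jl c ∈ Y.es) ∧
      (joinMap 𝒟₁.toSurfaceMap 𝒟₂.toSurfaceMap x₁ x₂).rev (jl x₁) ∉ Y.fs := by
    intro u v v' hv hv'
    obtain ⟨Y, y1, y2, y3⟩ := h₁ _ v v' hv hv'
    refine ⟨i1.lift Y y3, i1.lift_isDisc y3 y1, ?_, ?_⟩
    · intro c k1 k2
      exact ⟨c, y2 c ⟨k1, k2⟩, rfl⟩
    · rw [rev_jl]
      rintro ⟨c, hc, he⟩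
      apply y3
      rw [jl_inj he]
      exact hc
  have gen2 : ∀ u v v', H.Adj u v → H.Adj u v' → ∃ Y : Subcomplex
      (joinMap 𝒟₁.toSurfaceMap 𝒟₂.toSurfaceMap x₁ x₂), Y.IsDisc ∧
      (∀ c, 𝒟₂.src c = u → (𝒟₂.tgt c = v ∨ 𝒟₂.tgt c = v') → jr c ∈ Y.es) ∧
      (joinMap 𝒟₁.toSurfaceMap 𝒟₂.toSurfaceMap x₁ x₂).rev (jl x₁) ∉ Y.fs := by
    intro u v v' hv hv'
    obtain ⟨Y, y1, y2, y3⟩ := h₂ _ v v' hv hv'
    refine ⟨i2.lift Y y3, i2.lift_isDisc y3 y1, ?_, ?_⟩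
    · intro c k1 k2
      exact ⟨c, y2 c ⟨k1, k2⟩, rfl⟩
    · rw [rev_jl]
      rintro ⟨c, hc, he⟩
      exact jl_ne_jr _ _ he
  -- what has to be shown about a dart
  have hl : ∀ {u v v' : V ⊕ W} (Y : Subcomplex
      (joinMap 𝒟₁.toSurfaceMap 𝒟₂.toSurfaceMap x₁ x₂)),
      (∀ c : 𝒟₁.D, Sum.inl (𝒟₁.src c) = u → (Sum.inl (𝒟₁.tgt c) = v ∨ Sum.inl (𝒟₁.tgt c) = v') →
        jl c ∈ Y.es) →
      (∀ c : 𝒟₂.D, Sum.inr (𝒟₂.src c) = u → (Sum.inr (𝒟₂.tgt c) = v ∨ Sum.inr (𝒟₂.tgt c) = v') →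
        jr c ∈ Y.es) →
      (Sum.inl (𝒟₁.src x₁) = u → (Sum.inr (𝒟₂.src x₂) = v ∨ Sum.inr (𝒟₂.src x₂) = v') →
        jf ∈ Y.es) →
      (Sum.inr (𝒟₂.src x₂) = u → (Sum.inl (𝒟₁.src x₁) = v ∨ Sum.inl (𝒟₁.src x₁) = v') →
        jt ∈ Y.es) →
      ∀ d, ((joinDrawing 𝒟₁ 𝒟₂ x₁ x₂ p₁ p₂).src d = u ∧
        ((joinDrawing 𝒟₁ 𝒟₂ x₁ x₂ p₁ p₂).tgt d = v ∨
          (joinDrawing 𝒟₁ 𝒟₂ x₁ x₂ p₁ p₂).tgt d = v')) → d ∈ Y.es := by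
    intro u v v' Y q1 q2 q3 q4 d hd
    rcases jcases d with ⟨c, rfl⟩ | ⟨c, rfl⟩ | rfl | rfl
    · exact q1 c hd.1 hd.2
    · exact q2 c hd.1 hd.2
    · exact q3 hd.1 hd.2
    · exact q4 hd.1 hd.2
  rintro (u | u) (v | v) (v' | v') hv hv'
  · obtain ⟨Y, y1, y2, y3⟩ := gen1 u v v' hv hv'
    refine ⟨Y, y1, hl Y ?_ ?_ ?_ ?_, y3⟩
    · intro c k1 k2
      exact y2 c (Sum.inl_injective k1) (k2.imp (fun h => Sum.inl_injective h)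
        (fun h => Sum.inl_injective h))
    · intro c k1
      exact absurd k1 Sum.inr_ne_inl
    · rintro _ (k2 | k2)
      · exact absurd k2 Sum.inr_ne_inl
      · exact absurd k2 Sum.inr_ne_inl
    · intro k1
      exact absurd k1 Sum.inr_ne_inl
  · obtain ⟨rfl, rfl⟩ := adj_lr.1 hv'
    obtain ⟨Y, y1, y2, y3, y4⟩ := key1 v hv
    refine ⟨Y, y1, hl Y ?_ ?_ ?_ ?_, y4⟩
    · rintro c k1 (k2 | k2)
      · exact y2 c (Sum.inl_injective k1) (Sum.inl_injective k2)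
      · exact absurd k2 Sum.inl_ne_inr
    · intro c k1
      exact absurd k1 Sum.inr_ne_inl
    · intro _ _
      exact y3
    · intro k1
      exact absurd k1 Sum.inr_ne_inl
  · obtain ⟨rfl, rfl⟩ := adj_lr.1 hv
    obtain ⟨Y, y1, y2, y3, y4⟩ := key1 v' hv'
    refine ⟨Y, y1, hl Y ?_ ?_ ?_ ?_, y4⟩
    · rintro c k1 (k2 | k2)
      · exact absurd k2 Sum.inl_ne_inr
      · exact y2 c (Sum.inl_injective k1) (Sum.inl_injective k2)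
    · intro c k1
      exact absurd k1 Sum.inr_ne_inl
    · intro _ _
      exact y3
    · intro k1
      exact absurd k1 Sum.inr_ne_inl
  · obtain ⟨rfl, rfl⟩ := adj_lr.1 hv
    obtain ⟨Y, y1, y2, y3, y4⟩ := key1 _ hx1
    refine ⟨Y, y1, hl Y ?_ ?_ ?_ ?_, y4⟩
    · rintro c k1 (k2 | k2)
      · exact absurd k2 Sum.inl_ne_inr
      · exact absurd k2 Sum.inl_ne_inr
    · intro c k1
      exact absurd k1 Sum.inr_ne_inl
    · intro _ _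
      exact y3
    · intro k1
      exact absurd k1 Sum.inr_ne_inl
  · obtain ⟨rfl, rfl⟩ := adj_rl.1 hv
    obtain ⟨Y, y1, y2, y3, y4⟩ := key2 _ hx2
    refine ⟨Y, y1, hl Y ?_ ?_ ?_ ?_, y4⟩
    · intro c k1
      exact absurd k1 Sum.inl_ne_inr
    · rintro c k1 (k2 | k2)
      · exact absurd k2 Sum.inr_ne_inl
      · exact absurd k2 Sum.inr_ne_inl
    · intro k1
      exact absurd k1 Sum.inl_ne_inr
    · intro _ _
      exact y3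
  · obtain ⟨rfl, rfl⟩ := adj_rl.1 hv
    obtain ⟨Y, y1, y2, y3, y4⟩ := key2 v' hv'
    refine ⟨Y, y1, hl Y ?_ ?_ ?_ ?_, y4⟩
    · intro c k1
      exact absurd k1 Sum.inl_ne_inr
    · rintro c k1 (k2 | k2)
      · exact absurd k2 Sum.inr_ne_inl
      · exact y2 c (Sum.inr_injective k1) (Sum.inr_injective k2)
    · intro k1
      exact absurd k1 Sum.inl_ne_inr
    · intro _ _
      exact y3
  · obtain ⟨rfl, rfl⟩ := adj_rl.1 hv'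
    obtain ⟨Y, y1, y2, y3, y4⟩ := key2 v hv
    refine ⟨Y, y1, hl Y ?_ ?_ ?_ ?_, y4⟩
    · intro c k1
      exact absurd k1 Sum.inl_ne_inr
    · rintro c k1 (k2 | k2)
      · exact y2 c (Sum.inr_injective k1) (Sum.inr_injective k2)
      · exact absurd k2 Sum.inr_ne_inl
    · intro k1
      exact absurd k1 Sum.inl_ne_inr
    · intro _ _
      exact y3
  · obtain ⟨Y, y1, y2, y3⟩ := gen2 u v v' hv hv'
    refine ⟨Y, y1, hl Y ?_ ?_ ?_ ?_, y3⟩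
    · intro c k1
      exact absurd k1 Sum.inl_ne_inr
    · intro c k1 k2
      exact y2 c (Sum.inr_injective k1) (k2.imp (fun h => Sum.inr_injective h)
        (fun h => Sum.inr_injective h))
    · intro k1
      exact absurd k1 Sum.inl_ne_inr
    · rintro _ (k2 | k2)
      · exact absurd k2 Sum.inl_ne_inr
      · exact absurd k2 Sum.inl_ne_inr

theorem join_euler : (joinDrawing 𝒟₁ 𝒟₂ x₁ x₂ p₁ p₂).toSurfaceMap.euler =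
    𝒟₁.toSurfaceMap.euler + 𝒟₂.toSurfaceMap.euler - 2 := joinMap_euler _ _ _ _

end

end Pool.Agent.KS6_63.HT3
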