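import Pool.Agent.KS6_63.HT3.Emb

/-! # The complete graph on seven vertices and the torus -/

set_option autoImplicit false

namespace Pool.Agent.KS6_63.HT3

open Equiv Pool.Agent.KS6_63.HT Pool.Agent.KS6_63.HT2 Module

/-- A graph with a good drawing of Euler characteristic `e` whose embeddings have Euler
characteristic at most `f`. -/
structure Good {V : Type} (G : SimpleGraph V) (e f : ℤ) : Prop where
  conn : G.Connected
  draw : ∃ (𝒟 : Drawing G) (x : 𝒟.D), 𝒟.pos x = 0 ∧ 𝒟.toSurfaceMap.euler = e ∧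
    IndepZeroTwo 𝒟 ∧ AdjOnce 𝒟 ∧ DiscOK 𝒟 x
  low : ∀ ℰ : Drawing G, ℰ.IsEmbedding → ℰ.toSurfaceMap.euler ≤ f

theorem Good.join {V W : Type} {G : SimpleGraph V} {H : SimpleGraph W} {e f e' f' : ℤ}
    (h : Good G e f) (h' : Good H e' f') :
    ∃ a b, Good (joinGraph G H a b) (e + e' - 2) (f + f' - 2) := by
  obtain ⟨𝒟₁, x₁, p₁, q₁, r₁, s₁, t₁⟩ := h.draw
  obtain ⟨𝒟₂, x₂, p₂, q₂, r₂, s₂, t₂⟩ := h'.draw
  refine ⟨𝒟₁.src x₁, 𝒟₂.src x₂, joinGraph_connected h.conn h'.conn,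
    ⟨joinDrawing 𝒟₁ 𝒟₂ x₁ x₂ p₁ p₂, jl x₁, p₁, ?_, join_indep p₁ p₂ r₁ r₂,
      join_adj p₁ p₂ s₁ s₂, join_disc p₁ p₂ t₁ t₂⟩, ?_⟩
  · rw [join_euler, q₁, q₂]
  · intro ℰ hE
    obtain ⟨ℰ₁, ℰ₂, h1, h2, h3⟩ := split h.conn h'.conn ⟨_, 𝒟₁.adj x₁⟩ ⟨_, 𝒟₂.adj x₂⟩ ℰ hE
    have h4 := h.low ℰ₁ h1
    have h5 := h'.low ℰ₂ h2
    rw [h3]
    omega

/-- exponents -/
def pw (k : Fin 6) : Fin 7 := ![1, 3, 2, 6, 4, 5] k

def k7rot : Perm (Fin 7 × Fin 6) where
  toFun d := (d.1, d.2 + 1)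
  invFun d := (d.1, d.2 - 1)
  left_inv := by intro d; revert d; decide
  right_inv := by intro d; revert d; decide

def k7rev : Perm (Fin 7 × Fin 6) where
  toFun d := (d.1 + pw d.2, d.2 + 3)
  invFun d := (d.1 + pw d.2, d.2 + 3)
  left_inv := by intro d; revert d; decide
  right_inv := by intro d; revert d; decide

theorem k7cyc : ∀ d d' : Fin 7 × Fin 6, d.1 = d'.1 → k7rot.SameCycle d d' := by
  intro d d' h
  have key : ∀ d d' : Fin 7 × Fin 6, d.1 = d'.1 →
      d' = (fun x : Fin 7 × Fin 6 => (x.1, x.2 + 1))^[(d'.2 - d.2).val] d := by decide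
  have hit : ∀ n : ℕ, ∀ d : Fin 7 × Fin 6, (k7rot ^ n) d =
      (fun x : Fin 7 × Fin 6 => (x.1, x.2 + 1))^[n] d := by
    intro n
    induction n with
    | zero => intro d; rfl
    | succ n ih => intro d; rw [pow_succ', Perm.mul_apply, Function.iterate_succ_apply', ih]; rfl
  refine ⟨((d'.2 - d.2).val : ℕ), ?_⟩
  rw [zpow_natCast, hit, ← key d d' h]

theorem k7conn : (⊤ : SimpleGraph (Fin 7)).Connected := SimpleGraph.connected_top

/-- the embedding of the complete graph in the torus -/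
def k7emb : Drawing (⊤ : SimpleGraph (Fin 7)) :=
  mkEmb ⊤ k7conn (Fin 7 × Fin 6) k7rot k7rev (fun d => d.1) (fun d => d.1 + pw d.2)
    (by intro d; revert d; decide)
    (by intro d; rw [SimpleGraph.top_adj]; revert d; decide)
    (by intro d; rfl)
    (by
      intro u v h
      rw [SimpleGraph.top_adj] at h
      have h1 : ∀ u v : Fin 7, u ≠ v → ∃ d : Fin 7 × Fin 6, d.1 = u ∧ d.1 + pw d.2 = v := by decide
      have h2 : ∀ d d' : Fin 7 × Fin 6, d.1 = d'.1 → d.1 + pw d.2 = d'.1 + pw d'.2 → d = d' := by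
        decide
      obtain ⟨d, hd1, hd2⟩ := h1 u v h
      exact ⟨d, ⟨hd1, hd2⟩, fun d' hd' => h2 d' d (hd'.1.trans hd1.symm) (hd'.2.trans hd2.symm)⟩)
    (by intro d; rfl)
    k7cyc

theorem invol_same {D : Type} [Finite D] {σ : Perm D} (h : ∀ d, σ (σ d) = d) (d d' : D) :
    σ.SameCycle d' d ↔ d' = d ∨ d' = σ d := by
  constructor
  · intro h1
    exact closed_same (σ := σ) (T := {x | x = d ∨ x = σ d}) (by
      rintro x (hx | hx)
      · rw [hx]; exact Or.inr rfl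
      · rw [hx, h]; exact Or.inl rfl) h1.symm (Or.inl rfl)
  · rintro (h1 | h1)
    · rw [h1]
    · rw [h1, Perm.sameCycle_apply_left]

theorem third_same {D : Type} [Finite D] {σ : Perm D} (h : ∀ d, σ (σ (σ d)) = d) (d d' : D) :
    σ.SameCycle d' d ↔ d' = d ∨ d' = σ d ∨ d' = σ (σ d) := by
  constructor
  · intro h1
    exact closed_same (σ := σ) (T := {x | x = d ∨ x = σ d ∨ x = σ (σ d)}) (by
      rintro x (hx | hx | hx)
      · rw [hx]; exact Or.inr (Or.inl rfl)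
      · rw [hx]; exact Or.inr (Or.inr rfl)
      · rw [hx, h]; exact Or.inl rfl) h1.symm (Or.inl rfl)
  · rintro (h1 | h1 | h1)
    · rw [h1]
    · rw [h1, Perm.sameCycle_apply_left]
    · rw [h1, Perm.sameCycle_apply_left, Perm.sameCycle_apply_left]

theorem card_pair {D : Type} {σ : Perm D} [Finite D] (h : ∀ d, σ (σ d) = d) (h' : ∀ d, σ d ≠ d)
    (d : D) : Nat.card {d' : D // σ.SameCycle d' d} = 2 := by
  rw [Nat.card_congr (Equiv.subtypeEquivRight (fun d' => invol_same h d d'))]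
  exact Set.ncard_pair (h' d).symm

theorem k7_euler : k7emb.toSurfaceMap.euler = 0 := by
  have e1 : numOrbits k7rot = 7 := by
    have key : ∀ d : Fin 7 × Fin 6, Nat.card {d' : Fin 7 × Fin 6 // k7rot.SameCycle d' d} = 6 := by
      intro d
      have h1 : ∀ d' : Fin 7 × Fin 6, k7rot.SameCycle d' d ↔ d'.1 = d.1 := by
        intro d'
        constructor
        · intro h
          exact closed_same (σ := k7rot) (T := {x | x.1 = d.1}) (fun x hx => hx) h.symm rfl
        · intro h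
          exact k7cyc d' d h
      rw [Nat.card_congr (Equiv.subtypeEquivRight h1), Nat.card_eq_fintype_card]
      revert d
      intro d _
      revert d
      decide
    have h1 := orb_le k7rot (k := 6) (fun d => (key d).ge)
    have h2 := orb_ge k7rot (k := 6) (fun d => (key d).le)
    have h3 : Fintype.card (Fin 7 × Fin 6) = 42 := rfl
    omega
  have e2 : numOrbits k7rev = 21 := by
    have key := card_pair (σ := k7rev) (by intro d; revert d; decide) (by intro d; revert d; decide)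
    have h1 := orb_le k7rev (k := 2) (fun d => (key d).ge)
    have h2 := orb_ge k7rev (k := 2) (fun d => (key d).le)
    have h3 : Fintype.card (Fin 7 × Fin 6) = 42 := rfl
    omega
  have e3 : numOrbits (k7rot * k7rev) = 14 := by
    have key : ∀ d : Fin 7 × Fin 6,
        Nat.card {d' : Fin 7 × Fin 6 // (k7rot * k7rev).SameCycle d' d} = 3 := by
      intro d
      have h1 := third_same (σ := k7rot * k7rev) (by
        have : ∀ d : Fin 7 × Fin 6,
          k7rot (k7rev (k7rot (k7rev (k7rot (k7rev d))))) = d := by decide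
        exact this) d
      rw [Nat.card_congr (Equiv.subtypeEquivRight h1)]
      have h2 : ∀ d : Fin 7 × Fin 6, Fintype.card {d' : Fin 7 × Fin 6 // d' = d ∨
          d' = k7rot (k7rev d) ∨ d' = k7rot (k7rev (k7rot (k7rev d)))} = 3 := by decide
      rw [Nat.card_eq_fintype_card]
      exact h2 d
    have h1 := orb_le (k7rot * k7rev) (k := 3) (fun d => (key d).ge)
    have h2 := orb_ge (k7rot * k7rev) (k := 3) (fun d => (key d).le)
    have h3 : Fintype.card (Fin 7 × Fin 6) = 42 := rfl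
    omega
  have e4 : k7emb.toSurfaceMap.euler = (numOrbits k7rot : ℤ) - (numOrbits k7rev : ℤ) +
    (numOrbits (k7rot * k7rev) : ℤ) := rfl
  rw [e4, e1, e2, e3]
  norm_num

theorem k7_low (ℰ : Drawing (⊤ : SimpleGraph (Fin 7))) (hE : ℰ.IsEmbedding) :
    ℰ.toSurfaceMap.euler ≤ 0 := by
  classical
  have hfin := ℰ.fin
  have hsrc : ∀ d, ℰ.src (ℰ.rot d) = ℰ.src d := fun d => (ℰ.vertex d (hE d)).2
  have hcyc : ∀ d d', ℰ.src d = ℰ.src d' → ℰ.rot.SameCycle d d' := fun d d' h =>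
    ℰ.vertex_cyclic d d' (hE d) (hE d') h
  have hne : ∀ d, ℰ.src d ≠ ℰ.tgt d := fun d => (ℰ.adj d).ne
  have hcard : Fintype.card ℰ.D = 42 := by
    have h1 : Fintype.card ℰ.D = Fintype.card {p : Fin 7 × Fin 7 // p.1 ≠ p.2} := by
      apply Fintype.card_congr
      refine Equiv.ofBijective (fun d => ⟨(ℰ.src d, ℰ.tgt d), hne d⟩) ⟨?_, ?_⟩
      · intro d d' h
        have h2 := congrArg Subtype.val h
        have h3 : ℰ.src d = ℰ.src d' := congrArg Prod.fst h2
        have h4 : ℰ.tgt d = ℰ.tgt d' := congrArg Prod.snd h2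
        obtain ⟨e, _, he⟩ := ℰ.start _ _ (ℰ.adj d')
        rw [he d ⟨h3, h4, hE d⟩, he d' ⟨rfl, rfl, hE d'⟩]
      · rintro ⟨⟨u, v⟩, huv⟩
        obtain ⟨e, ⟨h1, h2, _⟩, _⟩ := ℰ.start u v (by rw [SimpleGraph.top_adj]; exact huv)
        exact ⟨e, Subtype.ext (Prod.ext h1 h2)⟩
    rw [h1]
    decide
  have c1 : numOrbits ℰ.rot ≤ 7 := by
    have : Nat.card (Quotient (Perm.SameCycle.setoid ℰ.rot)) ≤ Nat.card (Fin 7) := by
      refine Nat.card_le_card_of_injective (fun q => Quotient.lift ℰ.src (fun a b hab => ?_) q) ?_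
      · exact ((sameCycle_iff_inv _ a b).1 hab (fun z => ℰ.src z = ℰ.src b)
          (fun z => by rw [hsrc])).2 rfl
      · intro q q' h
        induction q using Quotient.ind
        induction q' using Quotient.ind
        exact Quotient.sound (hcyc _ _ h)
    rw [Nat.card_eq_fintype_card (α := Fin 7), Fintype.card_fin] at this
    exact this
  have c2 := orb_ge ℰ.rev (k := 2) (fun d => (card_pair ℰ.rev_rev ℰ.rev_ne d).le)
  have c3 := orb_le (ℰ.rot * ℰ.rev) (k := 3) (by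
    intro d
    have n1 : (ℰ.rot * ℰ.rev) d ≠ d := by
      intro h
      have h1 := hsrc (ℰ.rev d)
      rw [ℰ.src_rev] at h1
      rw [Perm.mul_apply] at h
      rw [h] at h1
      exact hne d h1
    have n2 : (ℰ.rot * ℰ.rev) ((ℰ.rot * ℰ.rev) d) ≠ d := by
      intro h
      set e := (ℰ.rot * ℰ.rev) d with he
      have h1 : ℰ.src e = ℰ.tgt d := by
        rw [he, Perm.mul_apply, hsrc, ℰ.src_rev]
      have h2 : ℰ.tgt e = ℰ.src d := by
        rw [← h, Perm.mul_apply, hsrc, ℰ.src_rev]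
      have h3 : e = ℰ.rev d := by
        obtain ⟨y, _, hy⟩ := ℰ.start _ _ (ℰ.adj e)
        rw [hy e ⟨rfl, rfl, hE e⟩]
        symm
        apply hy
        refine ⟨?_, ?_, hE _⟩
        · rw [ℰ.src_rev, h1]
        · rw [← ℰ.src_rev, ℰ.rev_rev, h2]
      have h4 : ℰ.rot (ℰ.rev d) = ℰ.rev d := by
        rw [Perm.mul_apply] at he
        rw [← he, h3]
      -- another dart at the end of `d`
      obtain ⟨w, hw1, hw2⟩ : ∃ w : Fin 7, w ≠ ℰ.tgt d ∧ w ≠ ℰ.src d := by
        have : ∀ p q : Fin 7, ∃ w : Fin 7, w ≠ p ∧ w ≠ q := by decide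
        exact this _ _
      obtain ⟨y, ⟨y1, y2, _⟩, _⟩ := ℰ.start (ℰ.tgt d) w (by
        rw [SimpleGraph.top_adj]; exact hw1.symm)
      have h5 : y ≠ ℰ.rev d := by
        intro h6
        apply hw2
        rw [← y2, h6, ← ℰ.src_rev, ℰ.rev_rev]
      exact not_sameCycle_of_fixed h4 h5 (hcyc _ _ (by rw [y1, ℰ.src_rev]))
    have n3 : (ℰ.rot * ℰ.rev) ((ℰ.rot * ℰ.rev) d) ≠ (ℰ.rot * ℰ.rev) d := fun h =>
      n1 ((ℰ.rot * ℰ.rev).injective h)
    have h1 : ({d, (ℰ.rot * ℰ.rev) d, (ℰ.rot * ℰ.rev) ((ℰ.rot * ℰ.rev) d)} : Set ℰ.D) ⊆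
        {d' | (ℰ.rot * ℰ.rev).SameCycle d' d} := by
      rintro x (hx | hx | hx)
      · rw [hx]; exact Perm.SameCycle.refl _ _
      · rw [hx]; exact Perm.sameCycle_apply_left.2 (Perm.SameCycle.refl _ _)
      · rw [hx]
        exact Perm.sameCycle_apply_left.2 (Perm.sameCycle_apply_left.2 (Perm.SameCycle.refl _ _))
    have h2 := Set.ncard_le_ncard h1 (Set.toFinite _)
    have h3 : ({d, (ℰ.rot * ℰ.rev) d, (ℰ.rot * ℰ.rev) ((ℰ.rot * ℰ.rev) d)} : Set ℰ.D).ncard = 3 := by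
      rw [Set.ncard_eq_three]
      exact ⟨_, _, _, n1.symm, n2.symm, n3.symm, rfl⟩
    rw [h3] at h2
    exact h2)
  have e4 : ℰ.toSurfaceMap.euler = (numOrbits ℰ.rot : ℤ) - (numOrbits ℰ.rev : ℤ) +
    (numOrbits (ℰ.rot * ℰ.rev) : ℤ) := rfl
  rw [e4]
  omega

theorem k7_good : Good (⊤ : SimpleGraph (Fin 7)) 0 0 where
  conn := k7conn
  draw := ⟨k7emb, (0, 0), rfl, k7_euler, emb_indep (fun _ => rfl), emb_adj (fun _ => rfl),
    emb_disc (fun _ => rfl) _⟩
  low := k7_low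

end Pool.Agent.KS6_63.HT3
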