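import Pool.Agent.KS6_63.HT3.K7

/-! # The base block: lower bound -/

set_option autoImplicit false

namespace Pool.Agent.KS6_63.HT3

open Equiv Pool.Agent.KS6_63.HT Pool.Agent.KS6_63.HT2 Module

export Pool.Agent.KS6_63.HT (get flip)

theorem emb_euler_le {N k : ℕ} (D : WData N k) {M g : ℕ} (hN : 3 ≤ N)
    (hm : 3 * (g + 1) ≤ M + 1)
    (hel : 2 * (g + 1) ≤ elim (2 * (g + 1)) ((List.range (2 * (g + 1))).map hrow))
    (hf : finalB D.nc D.np (2 * (g + 1)) D.sm D.nb D.pidx = true)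
    (ℰ : Drawing (gridGraph M D.w)) (hE : ℰ.IsEmbedding) :
    ℰ.toSurfaceMap.euler ≤ 2 - 2 * ((g : ℤ) + 1) := by
  have := ℰ.fin
  have hadj : ∀ d : Ed N M × Bool, (gridGraph M D.w).Adj (tail D.w d) (tail D.w (flip d)) :=
    fun d => ⟨d, rfl, rfl⟩
  choose f hf1 hf2 using fun d : Ed N M × Bool => ℰ.start _ _ (hadj d)
  have hfs : ∀ d, ℰ.src (f d) = tail D.w d := fun d => (hf1 d).1
  have hft : ∀ d, ℰ.tgt (f d) = tail D.w (flip d) := fun d => (hf1 d).2.1
  have hbij : Function.Bijective f := by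
    constructor
    · intro d d' h
      apply ends_inj D.w
      · rw [← hfs, ← hfs, h]
      · rw [← hft, ← hft, h]
    · intro e
      obtain ⟨d, h1, h2⟩ := ℰ.adj e
      exact ⟨d, (hf2 d e ⟨h1.symm, h2.symm, hE e⟩).symm⟩
  let φ : Ed N M × Bool ≃ ℰ.D := Equiv.ofBijective f hbij
  have hφ : ∀ d, φ d = f d := fun d => rfl
  let rot' : Perm (Ed N M × Bool) := φ.trans (ℰ.rot.trans φ.symm)
  have hrot : ∀ d, φ (rot' d) = ℰ.rot (φ d) := by
    intro d
    exact φ.apply_symm_apply _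
  have hflip : ∀ d, φ (flip d) = ℰ.rev (φ d) := by
    intro d
    symm
    refine hf2 (flip d) _ ⟨?_, ?_, hE _⟩
    · rw [ℰ.src_rev, hφ, hft]
    · rw [← ℰ.src_rev, ℰ.rev_rev, hφ, hfs]
      simp
  have hT : IsTail rot' (tail D.w) := by
    constructor
    · intro d
      rw [← hfs, ← hfs, ← hφ, ← hφ, hrot]
      exact (ℰ.vertex _ (hE _)).2
    · intro d d' h
      rw [sameCycle_congr φ hrot]
      refine ℰ.vertex_cyclic _ _ (hE _) (hE _) ?_
      rw [hφ, hφ, hfs, hfs, h]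
  have hC : Conn rot' := by
    intro F hF1 hF2 d d'
    have huniv := ℰ.conn {e | F (φ.symm e) = F d'} ⟨φ d', by simp⟩ (by
      intro e he
      constructor
      · have h1 := hF1 (φ.symm e)
        have h2 : φ.symm (ℰ.rot e) = rot' (φ.symm e) := by
          rw [Equiv.symm_apply_eq, hrot, Equiv.apply_symm_apply]
        simp only [Set.mem_setOf_eq] at he ⊢
        rw [h2, h1, he]
      · have h1 := hF2 (φ.symm e)
        have h2 : φ.symm (ℰ.rev e) = flip (φ.symm e) := by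
          rw [Equiv.symm_apply_eq, hflip, Equiv.apply_symm_apply]
        simp only [Set.mem_setOf_eq] at he ⊢
        rw [h2, h1, he])
    have : φ d ∈ (Set.univ : Set ℰ.D) := Set.mem_univ _
    rw [← huniv] at this
    simpa using this
  have h1 := D.genus_bound hT hC hN (g + 1) hm hel hf
  have o1 : numOrbits rot' = numOrbits ℰ.rot := numOrbits_congr φ hrot
  have o2 : numOrbits (rot' * flip) = numOrbits (ℰ.rot * ℰ.rev) := by
    apply numOrbits_congr φ
    intro d
    rw [Perm.mul_apply, Perm.mul_apply, hrot, hflip]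
  have o3 : numOrbits (flip : Perm (Ed N M × Bool)) = numOrbits ℰ.rev :=
    numOrbits_congr φ hflip
  have o4 : Fintype.card (Ed N M) ≤ numOrbits (flip : Perm (Ed N M × Bool)) :=
    le_numOrbits flip (fun d => d.1) (fun d => rfl) (fun e => ⟨(e, false), rfl⟩)
  have hg' : ℰ.toSurfaceMap.euler =
      (numOrbits ℰ.rot : ℤ) - (numOrbits ℰ.rev : ℤ) + (numOrbits (ℰ.rot * ℰ.rev) : ℤ) := rfl
  rw [hg']
  rw [o1, o2] at h1
  rw [o3] at o4
  omega


end Pool.Agent.KS6_63.HT3
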