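import Pool.Agent.KS6_63.HT2.Cert

/-! # Counting cycles of permutations -/

set_option autoImplicit false

namespace Pool.Agent.KS6_63.HT3

open Equiv Pool.Agent.KS6_63.HT Pool.Agent.KS6_63.HT2 Module

section general

variable {D : Type}

/-- `SameCycle` through invariant sets -/
theorem sameCycle_iff_inv (σ : Perm D) (x y : D) :
    σ.SameCycle x y ↔ ∀ f : D → Prop, (∀ d, f (σ d) ↔ f d) → (f x ↔ f y) := by
  constructor
  · rintro ⟨n, rfl⟩ f hf
    have key : ∀ (n : ℤ) d, f ((σ ^ n) d) ↔ f d := by
      intro n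
      induction n using Int.induction_on with
      | zero => intro d; simp
      | succ n ih => intro d; rw [zpow_add, zpow_one, Perm.mul_apply, ih, hf]
      | pred n ih =>
        intro d
        rw [zpow_sub, zpow_one, Perm.mul_apply, ih]
        have e1 : σ (σ⁻¹ d) = d := σ.apply_symm_apply d
        have := hf (σ⁻¹ d)
        rw [e1] at this
        exact this.symm
    exact (key n x).symm
  · intro h
    exact (h (fun d => σ.SameCycle x d) (fun d => Perm.sameCycle_apply_right)).1
      (Perm.SameCycle.refl _ _)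

theorem swap_inv {D : Type} [DecidableEq D] [Finite D] {α : Type} (σ : Perm D) {a b : D}
    (h : ¬ σ.SameCycle a b) (f : D → α) :
    (∀ d, f ((σ * swap a b) d) = f d) ↔ ((∀ d, f (σ d) = f d) ∧ f a = f b) := by
  have hab : a ≠ b := by
    rintro rfl
    exact h (Perm.SameCycle.refl _ _)
  constructor
  · intro hf
    have ha : f (σ b) = f a := by
      have := hf a
      rwa [Perm.mul_apply, swap_apply_left] at this
    have hb : f (σ a) = f b := by
      have := hf b
      rwa [Perm.mul_apply, swap_apply_right] at this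
    have ho : ∀ d, d ≠ a → d ≠ b → f (σ d) = f d := by
      intro d h1 h2
      have := hf d
      rwa [Perm.mul_apply, swap_apply_of_ne_of_ne h1 h2] at this
    have key : ∀ n : ℕ, f ((σ ^ (n + 1)) a) = f b := by
      intro n
      induction n with
      | zero => simpa using hb
      | succ n ih =>
        rw [pow_succ', Perm.mul_apply]
        by_cases h1 : (σ ^ (n + 1)) a = a
        · rw [h1, hb]
        · rw [ho _ h1, ih]
          intro h2
          exact h ⟨(n + 1 : ℕ), by rw [zpow_natCast]; exact h2⟩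
    have hfab : f a = f b := by
      cases nonempty_fintype D
      obtain ⟨m, hm⟩ := Nat.exists_eq_succ_of_ne_zero (orderOf_pos σ).ne'
      have := key m
      rw [← Nat.succ_eq_add_one, ← hm, pow_orderOf_eq_one, Perm.one_apply] at this
      exact this
    refine ⟨fun d => ?_, hfab⟩
    by_cases h1 : d = a
    · rw [h1, hb, hfab]
    by_cases h2 : d = b
    · rw [h2, ha, hfab]
    exact ho d h1 h2
  · rintro ⟨hf, hfab⟩ d
    rw [Perm.mul_apply, hf]
    by_cases h1 : d = a
    · rw [h1, swap_apply_left, hfab]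
    by_cases h2 : d = b
    · rw [h2, swap_apply_right, hfab]
    rw [swap_apply_of_ne_of_ne h1 h2]

theorem sameCycle_mul_swap [DecidableEq D] [Finite D] (σ : Perm D) {a b : D}
    (h : ¬ σ.SameCycle a b) (x y : D) :
    (σ * swap a b).SameCycle x y ↔
      ∀ f : D → Prop, (∀ d, f (σ d) ↔ f d) → (f a ↔ f b) → (f x ↔ f y) := by
  rw [sameCycle_iff_inv]
  have key := fun f : D → Prop => swap_inv (α := Prop) σ h f
  constructor
  · intro h1 f hf hab
    apply h1 f
    intro d
    exact iff_of_eq (((key f).2 ⟨fun d => propext (hf d), propext hab⟩) d)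
  · intro h1 f hf
    obtain ⟨h2, h3⟩ := (key f).1 fun d => propext (hf d)
    exact h1 f (fun d => iff_of_eq (h2 d)) (iff_of_eq h3)

theorem numOrbits_mul_swap [DecidableEq D] [Fintype D] (σ : Perm D) {a b : D}
    (h : ¬ σ.SameCycle a b) : numOrbits (σ * swap a b) + 1 = numOrbits σ := by
  classical
  rw [← finrank_Fix, ← finrank_Fix]
  let φ : Fix σ →ₗ[K] K :=
    { toFun := fun f => f.1 a + f.1 b
      map_add' := by
        intro x y
        simp only [Submodule.coe_add, Pi.add_apply]
        ring
      map_smul' := by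
        intro c x
        simp only [Submodule.coe_smul, Pi.smul_apply, smul_eq_mul, RingHom.id_apply]
        ring }
  have hmem : ∀ f : D → K, f ∈ Fix (σ * swap a b) ↔ (f ∈ Fix σ ∧ f a = f b) :=
    fun f => swap_inv σ h f
  have hle : Fix (σ * swap a b) ≤ Fix σ := fun f hf => ((hmem f).1 hf).1
  have hk : LinearMap.ker φ = (Fix (σ * swap a b)).comap (Fix σ).subtype := by
    ext f
    rw [LinearMap.mem_ker, Submodule.mem_comap]
    have e1 : φ f = f.1 a + f.1 b := rfl
    have e2 : (Fix σ).subtype f = f.1 := rfl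
    rw [e1, e2, hmem]
    constructor
    · intro h0
      exact ⟨f.2, CharTwo.add_eq_zero.1 h0⟩
    · intro h0
      exact CharTwo.add_eq_zero.2 h0.2
  have hr : LinearMap.range φ = ⊤ := by
    rw [LinearMap.range_eq_top]
    intro c
    refine ⟨⟨fun d => if σ.SameCycle a d then c else 0, ?_⟩, ?_⟩
    · intro d
      simp only [Perm.sameCycle_apply_right]
    · have e1 : φ ⟨fun d => if σ.SameCycle a d then c else 0, by
        intro d
        simp only [Perm.sameCycle_apply_right]⟩ =
          (if σ.SameCycle a a then c else 0) + (if σ.SameCycle a b then c else 0) := rfl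
      rw [e1, if_pos (Perm.SameCycle.refl _ _), if_neg h, add_zero]
  have h1 := LinearMap.finrank_range_add_finrank_ker φ
  rw [hr, finrank_top, hk] at h1
  have h2 : finrank K ((Fix (σ * swap a b)).comap (Fix σ).subtype) =
      finrank K (Fix (σ * swap a b)) :=
    (Submodule.comapSubtypeEquivOfLe hle).finrank_eq
  rw [h2] at h1
  have h3 : finrank K K = 1 := Module.finrank_self K
  omega

theorem numOrbits_sumCongr {A B : Type} [Fintype A] [Fintype B] (σ : Perm A) (τ : Perm B) :
    numOrbits (Perm.sumCongr σ τ) = numOrbits σ + numOrbits τ := by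
  rw [← finrank_Fix, ← finrank_Fix, ← finrank_Fix, ← Module.finrank_prod]
  refine LinearEquiv.finrank_eq (LinearEquiv.ofBijective
    ({ toFun := fun f => (⟨fun a => f.1 (Sum.inl a), fun a => f.2 (Sum.inl a)⟩,
        ⟨fun b => f.1 (Sum.inr b), fun b => f.2 (Sum.inr b)⟩)
       map_add' := by intro x y; rfl
       map_smul' := by intro c x; rfl } :
      Fix (Perm.sumCongr σ τ) →ₗ[K] (Fix σ × Fix τ)) ⟨?_, ?_⟩)
  · intro f g h
    have h1 := congrArg (fun z => z.1.1) h
    have h2 := congrArg (fun z => z.2.1) h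
    apply Subtype.ext
    funext z
    rcases z with a | b
    · exact congrFun h1 a
    · exact congrFun h2 b
  · rintro ⟨f, g⟩
    refine ⟨⟨Sum.elim f.1 g.1, ?_⟩, rfl⟩
    intro z
    rcases z with a | b
    · exact f.2 a
    · exact g.2 b

theorem numOrbits_one {A : Type} [Fintype A] : numOrbits (1 : Perm A) = Fintype.card A := by
  rw [← finrank_Fix]
  have : Fix (1 : Perm A) = ⊤ := by
    rw [eq_top_iff]
    intro f _ d
    rfl
  rw [this, finrank_top, Module.finrank_fintype_fun_eq_card]

/-- Transport of the number of cycles in a set. -/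
theorem numOrbitsIn_congr {A : Type} {σ : Perm A} {τ : Perm D} (ι : A → D) {s : Set A} {t : Set D}
    (h1 : ∀ a ∈ s, ∀ a' ∈ s, (τ.SameCycle (ι a) (ι a') ↔ σ.SameCycle a a'))
    (h2 : ∀ a ∈ s, ∃ d ∈ t, τ.SameCycle (ι a) d)
    (h3 : ∀ d ∈ t, ∃ a ∈ s, τ.SameCycle (ι a) d) :
    numOrbitsIn τ t = numOrbitsIn σ s := by
  unfold numOrbitsIn
  symm
  refine Set.ncard_congr (fun q hq => Quotient.mk (Perm.SameCycle.setoid τ)
    (ι (Classical.choose hq))) ?_ ?_ ?_
  · intro q hq
    have hs := Classical.choose_spec hq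
    obtain ⟨d, hd, hd2⟩ := h2 _ hs.1
    exact ⟨d, hd, Quotient.sound hd2.symm⟩
  · intro q q' hq hq' he
    have hs := Classical.choose_spec hq
    have hs' := Classical.choose_spec hq'
    have h5 := (h1 _ hs.1 _ hs'.1).1 (Quotient.exact he)
    rw [← hs.2, ← hs'.2]
    exact Quotient.sound h5
  · rintro q ⟨d, hd, rfl⟩
    obtain ⟨a, ha, had⟩ := h3 d hd
    have hq : Quotient.mk (Perm.SameCycle.setoid σ) a ∈
        (Quotient.mk (Perm.SameCycle.setoid σ)) '' s := ⟨a, ha, rfl⟩
    refine ⟨_, hq, ?_⟩
    have hs := Classical.choose_spec hq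
    apply Quotient.sound
    exact ((h1 _ hs.1 _ ha).2 (Quotient.exact hs.2)).trans had

end general

end Pool.Agent.KS6_63.HT3
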