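import Pool.Agent.KS6_63.HT3.Orb

/-! # Joining two maps by an edge: the permutations -/

set_option autoImplicit false

namespace Pool.Agent.KS6_63.HT3

open Equiv Pool.Agent.KS6_63.HT Pool.Agent.KS6_63.HT2 Module

theorem not_sameCycle_of_fixed {D : Type} {σ : Perm D} {a b : D} (h : σ b = b) (hab : a ≠ b) :
    ¬ σ.SameCycle a b := by
  rintro ⟨n, hn⟩
  apply hab
  have h1 : (σ ^ n) b = b := Perm.zpow_apply_eq_self_of_apply_eq_self h n
  exact (σ ^ n).injective (hn.trans h1.symm)

section abs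

variable {D : Type} [Fintype D] [DecidableEq D]

/-- the data of the join of two maps by an edge -/
structure JoinData (ρ τ : Perm D) (x1 x2 b b' : D) : Prop where
  ρb : ρ b = b
  ρb' : ρ b' = b'
  τb : τ b = b
  τb' : τ b' = b'
  hbb : b ≠ b'
  hS : ∃ S : D → Prop, (∀ d, S (ρ d) ↔ S d) ∧ (∀ d, S (τ d) ↔ S d) ∧ S x1 ∧ ¬ S x2 ∧ ¬ S b ∧ ¬ S b'
  h2b : x2 ≠ b
  h2b' : x2 ≠ b'

namespace JoinData

variable {ρ τ : Perm D} {x1 x2 b b' : D}

theorem h1b (h : JoinData ρ τ x1 x2 b b') : x1 ≠ b := by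
  obtain ⟨S, _, _, h3, _, h5, _⟩ := h.hS
  rintro rfl
  exact h5 h3

theorem h1b' (h : JoinData ρ τ x1 x2 b b') : x1 ≠ b' := by
  obtain ⟨S, _, _, h3, _, _, h6⟩ := h.hS
  rintro rfl
  exact h6 h3

theorem h12 (h : JoinData ρ τ x1 x2 b b') : x1 ≠ x2 := by
  obtain ⟨S, _, _, h3, h4, _, _⟩ := h.hS
  rintro rfl
  exact h4 h3

theorem fix2 (h : JoinData ρ τ x1 x2 b b') : (ρ * swap x1 b) b' = b' := by
  rw [Perm.mul_apply, swap_apply_of_ne_of_ne h.h1b'.symm h.hbb.symm, h.ρb']

theorem orb_rot (h : JoinData ρ τ x1 x2 b b') :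
    numOrbits (ρ * swap x1 b * swap x2 b') + 2 = numOrbits ρ := by
  have e1 := numOrbits_mul_swap ρ (not_sameCycle_of_fixed h.ρb h.h1b)
  have e2 := numOrbits_mul_swap (ρ * swap x1 b) (not_sameCycle_of_fixed h.fix2 h.h2b')
  omega

theorem orb_rev (h : JoinData ρ τ x1 x2 b b') :
    numOrbits (τ * swap b b') + 1 = numOrbits τ :=
  numOrbits_mul_swap τ (not_sameCycle_of_fixed h.τb' h.hbb)

theorem face_eq (h : JoinData ρ τ x1 x2 b b') :
    (ρ * swap x1 b * swap x2 b') * (τ * swap b b') =
      ρ * τ * swap (τ⁻¹ x1) b * swap (τ⁻¹ x2) b' * swap b b' := by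
  have i1 : τ⁻¹ b = b := by rw [Perm.inv_eq_iff_eq, h.τb]
  have i2 : τ⁻¹ b' = b' := by rw [Perm.inv_eq_iff_eq, h.τb']
  have e1 := swap_mul_eq_mul_swap τ x1 b
  have e2 := swap_mul_eq_mul_swap τ x2 b'
  rw [i1] at e1
  rw [i2] at e2
  calc (ρ * swap x1 b * swap x2 b') * (τ * swap b b')
      = ρ * swap x1 b * (swap x2 b' * τ) * swap b b' := by simp only [mul_assoc]
    _ = ρ * (swap x1 b * τ) * swap (τ⁻¹ x2) b' * swap b b' := by rw [e2]; simp only [mul_assoc]
    _ = _ := by rw [e1]; simp only [mul_assoc]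

theorem orb_face (h : JoinData ρ τ x1 x2 b b') :
    numOrbits ((ρ * swap x1 b * swap x2 b') * (τ * swap b b')) + 3 = numOrbits (ρ * τ) := by
  rw [h.face_eq]
  have i1 : τ⁻¹ b = b := by rw [Perm.inv_eq_iff_eq, h.τb]
  have i2 : τ⁻¹ b' = b' := by rw [Perm.inv_eq_iff_eq, h.τb']
  set y1 := τ⁻¹ x1 with hy1
  set y2 := τ⁻¹ x2 with hy2
  obtain ⟨S, s1, s2, s3, s4, s5, s6⟩ := h.hS
  have t1 : S y1 := by
    have e : τ y1 = x1 := τ.apply_symm_apply x1
    rw [← s2, e]
    exact s3
  have t2 : ¬ S y2 := by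
    have e : τ y2 = x2 := τ.apply_symm_apply x2
    rw [← s2, e]
    exact s4
  have n1 : y1 ≠ b := by rintro he; rw [he] at t1; exact s5 t1
  have n2 : y1 ≠ b' := by rintro he; rw [he] at t1; exact s6 t1
  have n3 : y2 ≠ b := by
    intro he
    apply h.h2b
    have : τ y2 = x2 := τ.apply_symm_apply x2
    rw [← this, he, h.τb]
  have n4 : y2 ≠ b' := by
    intro he
    apply h.h2b'
    have : τ y2 = x2 := τ.apply_symm_apply x2
    rw [← this, he, h.τb']
  have f1 : (ρ * τ) b = b := by rw [Perm.mul_apply, h.τb, h.ρb]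
  have f2 : (ρ * τ * swap y1 b) b' = b' := by
    rw [Perm.mul_apply, swap_apply_of_ne_of_ne n2.symm h.hbb.symm, Perm.mul_apply, h.τb', h.ρb']
  have e1 := numOrbits_mul_swap (ρ * τ) (not_sameCycle_of_fixed f1 n1)
  have e2 := numOrbits_mul_swap (ρ * τ * swap y1 b) (not_sameCycle_of_fixed f2 n4)
  have n5 : ¬ (ρ * τ * swap y1 b * swap y2 b').SameCycle b b' := by
    rw [sameCycle_iff_inv]
    intro hf
    have := hf (fun d => S d ∨ d = b) ?_
    · exact absurd (this.1 (Or.inr rfl)) (by
        rintro (h1 | h1)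
        · exact s6 h1
        · exact h.hbb h1.symm)
    · intro d
      by_cases d1 : d = y2
      · rw [d1, Perm.mul_apply, swap_apply_left, f2]
        constructor
        · rintro (h1 | h1)
          · exact absurd h1 s6
          · exact absurd h1.symm h.hbb
        · rintro (h1 | h1)
          · exact absurd h1 t2
          · exact absurd h1 n3
      by_cases d2 : d = b'
      · rw [d2, Perm.mul_apply, swap_apply_right, Perm.mul_apply]
        have m1 : swap y1 b y2 = y2 := swap_apply_of_ne_of_ne (by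
          rintro he; rw [he] at t2; exact t2 t1) n3
        rw [m1, Perm.mul_apply]
        constructor
        · rintro (h1 | h1)
          · rw [s1, s2] at h1; exact absurd h1 t2
          · exfalso
            have h9 : τ y2 = b := ρ.injective (h1.trans h.ρb.symm)
            exact n3 (τ.injective (h9.trans h.τb.symm))
        · rintro (h1 | h1)
          · exact absurd h1 s6
          · exact absurd h1.symm h.hbb
      rw [Perm.mul_apply, swap_apply_of_ne_of_ne d1 d2, Perm.mul_apply]
      by_cases d3 : d = y1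
      · rw [d3, swap_apply_left, f1]
        exact ⟨fun _ => Or.inl t1, fun _ => Or.inr rfl⟩
      by_cases d4 : d = b
      · rw [d4, swap_apply_right, Perm.mul_apply, s1, s2]
        exact ⟨fun _ => Or.inr rfl, fun _ => Or.inl t1⟩
      rw [swap_apply_of_ne_of_ne d3 d4, Perm.mul_apply, s1, s2]
      constructor
      · rintro (h1 | h1)
        · exact Or.inl h1
        · exfalso
          have h9 : τ d = b := ρ.injective (h1.trans h.ρb.symm)
          exact d4 (τ.injective (h9.trans h.τb.symm))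
      · rintro (h1 | h1)
        · exact Or.inl h1
        · exact absurd h1 d4
  have e3 := numOrbits_mul_swap (ρ * τ * swap y1 b * swap y2 b') n5
  omega

/-- Two darts other than the new ones lie in the same cycle after the insertion iff they did
before. -/
theorem same_rot (h : JoinData ρ τ x1 x2 b b') {y z : D} (hy : y ≠ b) (hy' : y ≠ b')
    (hz : z ≠ b) (hz' : z ≠ b') :
    (ρ * swap x1 b * swap x2 b').SameCycle y z ↔ ρ.SameCycle y z := by
  have n1 := not_sameCycle_of_fixed h.ρb h.h1b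
  have n2 := not_sameCycle_of_fixed h.fix2 h.h2b'
  rw [sameCycle_mul_swap _ n2, sameCycle_iff_inv]
  have key := fun f : D → Prop => swap_inv (α := Prop) ρ n1 f
  constructor
  · intro h1 f hf
    let g : D → Prop := fun d => if d = b then f x1 else if d = b' then f x2 else f d
    have g0 : ∀ d, d ≠ b → d ≠ b' → g d = f d := by
      intro d h2 h3
      change (if d = b then f x1 else if d = b' then f x2 else f d) = f d
      rw [if_neg h2, if_neg h3]
    have g1 : g b = f x1 := if_pos rfl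
    have g2 : g b' = f x2 := by
      change (if b' = b then f x1 else if b' = b' then f x2 else f b') = f x2
      rw [if_neg h.hbb.symm, if_pos rfl]
    have hg : ∀ d, g (ρ d) = g d := by
      intro d
      by_cases d1 : d = b
      · rw [d1, h.ρb]
      by_cases d2 : d = b'
      · rw [d2, h.ρb']
      rw [g0 d d1 d2, g0 (ρ d)]
      · exact propext (hf d)
      · intro he; exact d1 (ρ.injective (he.trans h.ρb.symm))
      · intro he; exact d2 (ρ.injective (he.trans h.ρb'.symm))
    have h4 := h1 g ?_ ?_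
    · rw [g0 y hy hy', g0 z hz hz'] at h4
      exact h4
    · intro d
      have := (key g).2 ⟨hg, by rw [g0 x1 h.h1b h.h1b', g1]⟩
      exact iff_of_eq (this d)
    · rw [g0 x2 h.h2b h.h2b', g2]
  · intro h1 f hf hab
    have h2 := (key f).1 fun d => propext (hf d)
    exact h1 f fun d => iff_of_eq (h2.1 d)

theorem same_x1 (h : JoinData ρ τ x1 x2 b b') :
    (ρ * swap x1 b * swap x2 b').SameCycle x1 b := by
  refine ⟨1, ?_⟩
  rw [zpow_one, Perm.mul_apply, swap_apply_of_ne_of_ne h.h12 h.h1b', Perm.mul_apply,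
    swap_apply_left, h.ρb]

theorem same_x2 (h : JoinData ρ τ x1 x2 b b') :
    (ρ * swap x1 b * swap x2 b').SameCycle x2 b' := by
  refine ⟨1, ?_⟩
  rw [zpow_one, Perm.mul_apply, swap_apply_left, h.fix2]

end JoinData

end abs

end Pool.Agent.KS6_63.HT3
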