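import Pool.Agent.KS6_63.HT3.JoinP

/-! # An embedding of a join restricts to embeddings of the two parts -/

set_option autoImplicit false

namespace Pool.Agent.KS6_63.HT3

open Equiv Pool.Agent.KS6_63.HT Pool.Agent.KS6_63.HT2 Module

/-- An embedding given by its rotation. -/
def mkEmb {V : Type} (G : SimpleGraph V) (hG : G.Connected) (D : Type) [Fintype D]
    (rot rev : Perm D) (src tgt : D → V) (rev_rev : ∀ d, rev (rev d) = d)
    (adj : ∀ d, G.Adj (src d) (tgt d)) (src_rev : ∀ d, src (rev d) = tgt d)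
    (start : ∀ u v, G.Adj u v → ∃! d, src d = u ∧ tgt d = v)
    (hrot : ∀ d, src (rot d) = src d) (cyc : ∀ d d', src d = src d' → rot.SameCycle d d') :
    Drawing G where
  D := D
  fin := inferInstance
  rot := rot
  rev := rev
  rev_rev := rev_rev
  rev_ne := by
    intro d h
    have := adj d
    rw [← src_rev, h] at this
    exact G.loopless.irrefl _ this
  conn := by
    intro s hs hcl
    obtain ⟨d0, hd0⟩ := hs
    have hc : ∀ d d', src d = src d' → d ∈ s → d' ∈ s := fun d d' h1 h2 =>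
      closed_same (fun z hz => (hcl z hz).1) (cyc d d' h1) h2
    have key : ∀ u v : V, G.Walk u v → (∀ d, src d = u → d ∈ s) → (∀ d, src d = v → d ∈ s) := by
      intro u v p
      induction p with
      | nil => exact fun h => h
      | cons h _ ih =>
        intro h1
        apply ih
        intro d hd
        obtain ⟨e, ⟨he1, he2⟩, _⟩ := start _ _ h
        have h2 := (hcl e (h1 e he1)).2
        refine hc _ _ ?_ h2
        rw [src_rev, he2, hd]
    ext d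
    constructor
    · intro _; exact Set.mem_univ _
    · intro _
      obtain ⟨p⟩ := hG.preconnected (src d0) (src d)
      exact key _ _ p (fun d' h => hc _ _ h.symm hd0) d rfl
  src := src
  tgt := tgt
  pos := fun _ => 0
  adj := adj
  src_rev := src_rev
  start := by
    intro u v h
    obtain ⟨d, ⟨h1, h2⟩, h3⟩ := start u v h
    exact ⟨d, ⟨h1, h2, rfl⟩, fun d' hd' => h3 d' ⟨hd'.1, hd'.2.1⟩⟩
  vertex := fun d _ => ⟨rfl, hrot d⟩
  vertex_cyclic := fun d d' _ _ h => cyc d d' h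
  cross := fun _ h => absurd h (lt_irrefl 0)
  cross_prev := fun _ h => absurd h (lt_irrefl 0)
  cross_ne := fun _ h => absurd h (lt_irrefl 0)

theorem split_orbits {D : Type} [Fintype D] {P Q : D → Prop} {b b' : D} (hbb : b ≠ b')
    (hP : ∀ d, P d → ¬ Q d) (hPb : ¬ P b) (hPb' : ¬ P b') (hQb : ¬ Q b) (hQb' : ¬ Q b')
    (hall : ∀ d, P d ∨ Q d ∨ d = b ∨ d = b') (σ : Perm D) (h1 : ∀ d, P (σ d) ↔ P d)
    (h2 : ∀ d, Q (σ d) ↔ Q d) (h3 : σ b = b) (h4 : σ b' = b') :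
    numOrbits σ = numOrbits (σ.subtypePerm h1) + numOrbits (σ.subtypePerm h2) + 2 := by
  classical
  let f : ({d // P d} ⊕ {d // Q d}) ⊕ Bool → D :=
    Sum.elim (Sum.elim Subtype.val Subtype.val) (fun c => cond c b' b)
  have hf : Function.Bijective f := by
    constructor
    · rintro ((x | x) | x) ((y | y) | y) hxy
      · exact congrArg _ (congrArg _ (Subtype.ext hxy))
      · have : x.1 = y.1 := hxy
        exact absurd y.2 (by rw [← this]; exact hP _ x.2)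
      · have : x.1 = cond y b' b := hxy
        have h5 := x.2
        rw [this] at h5
        cases y
        · exact absurd h5 hPb
        · exact absurd h5 hPb'
      · have : x.1 = y.1 := hxy
        exact absurd x.2 (by rw [this]; exact hP _ y.2)
      · exact congrArg _ (congrArg _ (Subtype.ext hxy))
      · have : x.1 = cond y b' b := hxy
        have h5 := x.2
        rw [this] at h5
        cases y
        · exact absurd h5 hQb
        · exact absurd h5 hQb'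
      · have : cond x b' b = y.1 := hxy
        have h5 := y.2
        rw [← this] at h5
        cases x
        · exact absurd h5 hPb
        · exact absurd h5 hPb'
      · have : cond x b' b = y.1 := hxy
        have h5 := y.2
        rw [← this] at h5
        cases x
        · exact absurd h5 hQb
        · exact absurd h5 hQb'
      · have : cond x b' b = cond y b' b := hxy
        cases x <;> cases y
        · rfl
        · exact absurd this hbb
        · exact absurd this.symm hbb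
        · rfl
    · intro d
      rcases hall d with h | h | h | h
      · exact ⟨Sum.inl (Sum.inl ⟨d, h⟩), rfl⟩
      · exact ⟨Sum.inl (Sum.inr ⟨d, h⟩), rfl⟩
      · exact ⟨Sum.inr false, h.symm⟩
      · exact ⟨Sum.inr true, h.symm⟩
  have key := numOrbits_congr (Equiv.ofBijective f hf)
    (σ := Perm.sumCongr (Perm.sumCongr (σ.subtypePerm h1) (σ.subtypePerm h2)) (1 : Perm Bool))
    (τ := σ) (by
      rintro ((x | x) | x)
      · rfl
      · rfl
      · cases x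
        · exact h3.symm
        · exact h4.symm)
  rw [numOrbits_sumCongr, numOrbits_sumCongr, numOrbits_one, Fintype.card_bool] at key
  exact key.symm

/-- the embedding of one part -/
theorem side_exists {V U : Type} {G : SimpleGraph V} {K' : SimpleGraph U} (ι : U → V)
    (hι : Function.Injective ι) (hadj : ∀ u v, G.Adj (ι u) (ι v) ↔ K'.Adj u v)
    (hK : K'.Connected) (ℰ : Drawing G) (hE : ℰ.IsEmbedding) (ρ τ : Perm ℰ.D)
    (P : ℰ.D → Prop) (hP : ∀ d, P d ↔ ∃ u v, ℰ.src d = ι u ∧ ℰ.tgt d = ι v)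
    (h1 : ∀ d, P (ρ d) ↔ P d) (h2 : ∀ d, P (τ d) ↔ P d)
    (h3 : ∀ d, P d → ℰ.src (ρ d) = ℰ.src d) (h4 : ∀ d, P d → τ d = ℰ.rev d)
    (h5 : ∀ d d', P d → P d' → ℰ.src d = ℰ.src d' → ρ.SameCycle d d') :
    ∃ ℰ₁ : Drawing K', ℰ₁.IsEmbedding ∧ ℰ₁.toSurfaceMap.euler =
      (numOrbits (ρ.subtypePerm h1) : ℤ) - (numOrbits (τ.subtypePerm h2) : ℤ) +
        (numOrbits (ρ.subtypePerm h1 * τ.subtypePerm h2) : ℤ) := by
  classical
  have := ℰ.fin
  choose s t hs ht using fun d : {d // P d} => (hP d.1).1 d.2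
  have st : ∀ d : {d // P d}, s ⟨τ d.1, (h2 _).2 d.2⟩ = t d := by
    intro d
    apply hι
    rw [← ht, ← hs]
    change ℰ.src (τ d.1) = ℰ.tgt d.1
    rw [h4 d.1 d.2, ℰ.src_rev]
  refine ⟨mkEmb K' hK {d // P d} (ρ.subtypePerm h1) (τ.subtypePerm h2) s t ?_ ?_ ?_ ?_ ?_ ?_,
    fun _ => rfl, rfl⟩
  · intro d
    apply Subtype.ext
    change τ (τ d.1) = d.1
    rw [h4 (τ d.1) ((h2 _).2 d.2), h4 d.1 d.2, ℰ.rev_rev]
  · intro d
    rw [← hadj, ← hs, ← ht]
    exact ℰ.adj d.1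
  · intro d
    exact st d
  · intro u v huv
    obtain ⟨d, ⟨e1, e2, _⟩, e4⟩ := ℰ.start _ _ ((hadj u v).2 huv)
    have hd : P d := (hP d).2 ⟨u, v, e1, e2⟩
    refine ⟨⟨d, hd⟩, ⟨?_, ?_⟩, ?_⟩
    · apply hι
      rw [← hs]
      exact e1
    · apply hι
      rw [← ht]
      exact e2
    · rintro d' ⟨q1, q2⟩
      apply Subtype.ext
      refine e4 d'.1 ⟨?_, ?_, hE d'.1⟩
      · rw [hs, q1]
      · rw [ht, q2]
  · intro d
    apply hι
    rw [← hs, ← hs]
    exact h3 d.1 d.2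
  · intro d d' hdd
    rw [Perm.sameCycle_subtypePerm]
    apply h5 _ _ d.2 d'.2
    rw [hs, hs, hdd]

theorem split {V W : Type} {G : SimpleGraph V} {H : SimpleGraph W} {a : V} {b : W}
    (hG : G.Connected) (hH : H.Connected) (ha : ∃ v, G.Adj a v) (hb : ∃ v, H.Adj b v)
    (ℰ : Drawing (joinGraph G H a b)) (hE : ℰ.IsEmbedding) :
    ∃ (ℰ₁ : Drawing G) (ℰ₂ : Drawing H), ℰ₁.IsEmbedding ∧ ℰ₂.IsEmbedding ∧
      ℰ.toSurfaceMap.euler = ℰ₁.toSurfaceMap.euler + ℰ₂.toSurfaceMap.euler - 2 := by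
  classical
  have hfin := ℰ.fin
  obtain ⟨β, ⟨b1, b2, _⟩, b4⟩ := ℰ.start (Sum.inl a) (Sum.inr b) (adj_lr.2 ⟨rfl, rfl⟩)
  obtain ⟨va, hva⟩ := ha
  obtain ⟨vb, hvb⟩ := hb
  obtain ⟨ya, ⟨ya1, ya2, _⟩, _⟩ := ℰ.start (Sum.inl a) (Sum.inl va) (adj_ll.2 hva)
  obtain ⟨yb, ⟨yb1, yb2, _⟩, _⟩ := ℰ.start (Sum.inr b) (Sum.inr vb) (adj_rr.2 hvb)
  set β' := ℰ.rev β with hβ'
  have b1' : ℰ.src β' = Sum.inr b := by rw [hβ', ℰ.src_rev, b2]
  have b2' : ℰ.tgt β' = Sum.inl a := by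
    rw [← ℰ.src_rev, hβ', ℰ.rev_rev, b1]
  have hbb : β ≠ β' := by
    intro h
    rw [h, b1'] at b1
    exact Sum.inr_ne_inl b1
  let P : ℰ.D → Prop := fun d => ∃ u v, ℰ.src d = Sum.inl u ∧ ℰ.tgt d = Sum.inl v
  let Q : ℰ.D → Prop := fun d => ∃ u v, ℰ.src d = Sum.inr u ∧ ℰ.tgt d = Sum.inr v
  have eβ : ∀ d, ℰ.src d = Sum.inl a → ℰ.tgt d = Sum.inr b → d = β := fun d h1 h2 =>
    b4 d ⟨h1, h2, hE d⟩
  have hall : ∀ d, P d ∨ Q d ∨ d = β ∨ d = β' := by
    intro d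
    have hd := ℰ.adj d
    rcases hs : ℰ.src d with u | u <;> rcases ht : ℰ.tgt d with v | v
    · exact Or.inl ⟨u, v, hs, ht⟩
    · rw [hs, ht] at hd
      obtain ⟨rfl, rfl⟩ := adj_lr.1 hd
      exact Or.inr (Or.inr (Or.inl (eβ d hs ht)))
    · rw [hs, ht] at hd
      obtain ⟨rfl, rfl⟩ := adj_rl.1 hd
      refine Or.inr (Or.inr (Or.inr ?_))
      have h1 : ℰ.rev d = β := by
        apply eβ
        · rw [ℰ.src_rev, ht]
        · rw [← ℰ.src_rev, ℰ.rev_rev, hs]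
      rw [hβ', ← h1, ℰ.rev_rev]
    · exact Or.inr (Or.inl ⟨u, v, hs, ht⟩)
  have hPQ : ∀ d, P d → ¬ Q d := by
    rintro d ⟨u, v, h1, _⟩ ⟨u', v', h2, _⟩
    rw [h1] at h2
    exact Sum.inl_ne_inr h2
  have hPb : ¬ P β := by
    rintro ⟨u, v, _, h2⟩
    rw [b2] at h2
    exact Sum.inr_ne_inl h2
  have hPb' : ¬ P β' := by
    rintro ⟨u, v, h1, _⟩
    rw [b1'] at h1
    exact Sum.inr_ne_inl h1
  have hQb : ¬ Q β := by
    rintro ⟨u, v, h1, _⟩
    rw [b1] at h1
    exact Sum.inl_ne_inr h1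
  have hQb' : ¬ Q β' := by
    rintro ⟨u, v, _, h2⟩
    rw [b2'] at h2
    exact Sum.inl_ne_inr h2
  have hsrc : ∀ d, ℰ.src (ℰ.rot d) = ℰ.src d := fun d => (ℰ.vertex d (hE d)).2
  -- the neighbours of the new darts in the rotation
  let x1 := ℰ.rot⁻¹ β
  let x2 := ℰ.rot⁻¹ β'
  have r1 : ℰ.rot x1 = β := ℰ.rot.apply_symm_apply β
  have r2 : ℰ.rot x2 = β' := ℰ.rot.apply_symm_apply β'
  have s1 : ℰ.src x1 = Sum.inl a := by rw [← hsrc, r1, b1]
  have s2 : ℰ.src x2 = Sum.inr b := by rw [← hsrc, r2, b1']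
  have nfix : ∀ z y : ℰ.D, y ≠ z → ℰ.src y = ℰ.src z → ℰ.rot z ≠ z := by
    intro z y hy hs hz
    exact not_sameCycle_of_fixed hz hy (ℰ.vertex_cyclic y z (hE y) (hE z) hs)
  have nβ : ℰ.rot β ≠ β := by
    apply nfix β ya
    · intro h
      rw [h, b2] at ya2
      exact Sum.inr_ne_inl ya2
    · rw [ya1, b1]
  have nβ' : ℰ.rot β' ≠ β' := by
    apply nfix β' yb
    · intro h
      rw [h, b2'] at yb2
      exact Sum.inl_ne_inr yb2
    · rw [yb1, b1']
  have x1β : x1 ≠ β := by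
    intro h
    rw [h] at r1
    exact nβ r1
  have x2β' : x2 ≠ β' := by
    intro h
    rw [h] at r2
    exact nβ' r2
  have x1β' : x1 ≠ β' := by
    intro h
    rw [h, b1'] at s1
    exact Sum.inr_ne_inl s1
  have x2β : x2 ≠ β := by
    intro h
    rw [h, b1] at s2
    exact Sum.inl_ne_inr s2
  have x12 : x1 ≠ x2 := by
    intro h
    rw [h, s2] at s1
    exact Sum.inr_ne_inl s1
  have Px1 : P x1 := by
    rcases hall x1 with h | ⟨u, v, h, _⟩ | h | h
    · exact h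
    · rw [s1] at h; exact absurd h Sum.inl_ne_inr
    · exact absurd h x1β
    · exact absurd h x1β'
  have Qx2 : Q x2 := by
    rcases hall x2 with ⟨u, v, h, _⟩ | h | h | h
    · rw [s2] at h; exact absurd h Sum.inr_ne_inl
    · exact h
    · exact absurd h x2β
    · exact absurd h x2β'
  let ρ : Perm ℰ.D := ℰ.rot * swap x2 β' * swap x1 β
  let τ : Perm ℰ.D := ℰ.rev * swap β β'
  have eρ : ρ * swap x1 β * swap x2 β' = ℰ.rot := by
    change ℰ.rot * swap x2 β' * swap x1 β * swap x1 β * swap x2 β' = ℰ.rot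
    rw [mul_assoc (ℰ.rot * swap x2 β'), swap_mul_self, mul_one, mul_assoc, swap_mul_self, mul_one]
  have eτ : τ * swap β β' = ℰ.rev := by
    change ℰ.rev * swap β β' * swap β β' = ℰ.rev
    rw [mul_assoc, swap_mul_self, mul_one]
  have ρ1 : ρ x1 = ℰ.rot β := by
    change (ℰ.rot * swap x2 β' * swap x1 β) x1 = _
    rw [Perm.mul_apply, swap_apply_left, Perm.mul_apply,
      swap_apply_of_ne_of_ne x2β.symm hbb]
  have ρ2 : ρ x2 = ℰ.rot β' := by
    change (ℰ.rot * swap x2 β' * swap x1 β) x2 = _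
    rw [Perm.mul_apply, swap_apply_of_ne_of_ne x12.symm x2β, Perm.mul_apply, swap_apply_left]
  have ρβ : ρ β = β := by
    change (ℰ.rot * swap x2 β' * swap x1 β) β = _
    rw [Perm.mul_apply, swap_apply_right, Perm.mul_apply, swap_apply_of_ne_of_ne x12 x1β', r1]
  have ρβ' : ρ β' = β' := by
    change (ℰ.rot * swap x2 β' * swap x1 β) β' = _
    rw [Perm.mul_apply, swap_apply_of_ne_of_ne x1β'.symm hbb.symm, Perm.mul_apply,
      swap_apply_right, r2]
  have ρo : ∀ d, d ≠ x1 → d ≠ x2 → d ≠ β → d ≠ β' → ρ d = ℰ.rot d := by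
    intro d k1 k2 k3 k4
    change (ℰ.rot * swap x2 β' * swap x1 β) d = _
    rw [Perm.mul_apply, swap_apply_of_ne_of_ne k1 k3, Perm.mul_apply,
      swap_apply_of_ne_of_ne k2 k4]
  have τβ : τ β = β := by
    change (ℰ.rev * swap β β') β = _
    rw [Perm.mul_apply, swap_apply_left, hβ', ℰ.rev_rev]
  have τβ' : τ β' = β' := by
    change (ℰ.rev * swap β β') β' = _
    rw [Perm.mul_apply, swap_apply_right]
  have τo : ∀ d, d ≠ β → d ≠ β' → τ d = ℰ.rev d := by
    intro d k3 k4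
    change (ℰ.rev * swap β β') d = _
    rw [Perm.mul_apply, swap_apply_of_ne_of_ne k3 k4]
  have nP : ∀ d, P d → d ≠ β ∧ d ≠ β' := fun d hd =>
    ⟨fun h => hPb (h ▸ hd), fun h => hPb' (h ▸ hd)⟩
  have nQ : ∀ d, Q d → d ≠ β ∧ d ≠ β' := fun d hd =>
    ⟨fun h => hQb (h ▸ hd), fun h => hQb' (h ▸ hd)⟩
  have ρsP : ∀ d, P d → ℰ.src (ρ d) = ℰ.src d := by
    intro d hd
    by_cases k1 : d = x1
    · rw [k1, ρ1, hsrc, b1, s1]
    by_cases k2 : d = x2
    · exact absurd Qx2 (hPQ _ (k2 ▸ hd))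
    rw [ρo d k1 k2 (nP d hd).1 (nP d hd).2, hsrc]
  have ρsQ : ∀ d, Q d → ℰ.src (ρ d) = ℰ.src d := by
    intro d hd
    by_cases k1 : d = x1
    · exact absurd (k1 ▸ hd) (hPQ _ Px1)
    by_cases k2 : d = x2
    · rw [k2, ρ2, hsrc, b1', s2]
    rw [ρo d k1 k2 (nQ d hd).1 (nQ d hd).2, hsrc]
  have ρP : ∀ d, P d → P (ρ d) := by
    intro d hd
    have h1 := ρsP d hd
    have n := nP d hd
    rcases hall (ρ d) with h | ⟨u, v, h, _⟩ | h | h
    · exact h
    · obtain ⟨u', v', h', _⟩ := hd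
      rw [h1, h'] at h
      exact absurd h Sum.inl_ne_inr
    · exact absurd (ρ.injective (h.trans ρβ.symm)) n.1
    · exact absurd (ρ.injective (h.trans ρβ'.symm)) n.2
  have ρQ : ∀ d, Q d → Q (ρ d) := by
    intro d hd
    have h1 := ρsQ d hd
    have n := nQ d hd
    rcases hall (ρ d) with ⟨u, v, h, _⟩ | h | h | h
    · obtain ⟨u', v', h', _⟩ := hd
      rw [h1, h'] at h
      exact absurd h Sum.inr_ne_inl
    · exact h
    · exact absurd (ρ.injective (h.trans ρβ.symm)) n.1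
    · exact absurd (ρ.injective (h.trans ρβ'.symm)) n.2
  have hρP : ∀ d, P (ρ d) ↔ P d := fun d => closed_iff (T := {d | P d}) (fun d hd => ρP d hd) d
  have hρQ : ∀ d, Q (ρ d) ↔ Q d := fun d => closed_iff (T := {d | Q d}) (fun d hd => ρQ d hd) d
  have τP : ∀ d, P d → P (τ d) := by
    intro d hd
    rw [τo d (nP d hd).1 (nP d hd).2]
    obtain ⟨u, v, h1, h2⟩ := hd
    exact ⟨v, u, by rw [ℰ.src_rev, h2], by rw [← ℰ.src_rev, ℰ.rev_rev, h1]⟩
  have τQ : ∀ d, Q d → Q (τ d) := by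
    intro d hd
    rw [τo d (nQ d hd).1 (nQ d hd).2]
    obtain ⟨u, v, h1, h2⟩ := hd
    exact ⟨v, u, by rw [ℰ.src_rev, h2], by rw [← ℰ.src_rev, ℰ.rev_rev, h1]⟩
  have hτP : ∀ d, P (τ d) ↔ P d := fun d => closed_iff (T := {d | P d}) (fun d hd => τP d hd) d
  have hτQ : ∀ d, Q (τ d) ↔ Q d := fun d => closed_iff (T := {d | Q d}) (fun d hd => τQ d hd) d
  have J : JoinData ρ τ x1 x2 β β' :=
    { ρb := ρβ
      ρb' := ρβ'
      τb := τβ
      τb' := τβ'
      hbb := hbb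
      hS := ⟨P, hρP, hτP, Px1, fun h => hPQ _ h Qx2, hPb, hPb'⟩
      h2b := x2β
      h2b' := x2β' }
  obtain ⟨ℰ₁, e1, e2⟩ := side_exists (K' := G) Sum.inl Sum.inl_injective (fun u v => adj_ll) hG ℰ hE
    ρ τ P (fun d => Iff.rfl) hρP hτP ρsP (fun d hd => τo d (nP d hd).1 (nP d hd).2)
    (fun d d' hd hd' hs => by
      have h1 := ℰ.vertex_cyclic d d' (hE d) (hE d') hs
      rw [← eρ] at h1
      exact (J.same_rot (nP d hd).1 (nP d hd).2 (nP d' hd').1 (nP d' hd').2).1 h1)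
  obtain ⟨ℰ₂, f1, f2⟩ := side_exists (K' := H) Sum.inr Sum.inr_injective (fun u v => adj_rr) hH ℰ hE
    ρ τ Q (fun d => Iff.rfl) hρQ hτQ ρsQ (fun d hd => τo d (nQ d hd).1 (nQ d hd).2)
    (fun d d' hd hd' hs => by
      have h1 := ℰ.vertex_cyclic d d' (hE d) (hE d') hs
      rw [← eρ] at h1
      exact (J.same_rot (nQ d hd).1 (nQ d hd).2 (nQ d' hd').1 (nQ d' hd').2).1 h1)
  refine ⟨ℰ₁, ℰ₂, e1, f1, ?_⟩
  have o1 := J.orb_rot
  have o2 := J.orb_rev
  have o3 := J.orb_face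
  rw [eρ] at o1 o3
  rw [eτ] at o2 o3
  have q1 := split_orbits hbb hPQ hPb hPb' hQb hQb' hall ρ hρP hρQ ρβ ρβ'
  have q2 := split_orbits hbb hPQ hPb hPb' hQb hQb' hall τ hτP hτQ τβ τβ'
  have q3 := split_orbits hbb hPQ hPb hPb' hQb hQb' hall (ρ * τ)
    (fun d => (hρP _).trans (hτP d)) (fun d => (hρQ _).trans (hτQ d))
    (by rw [Perm.mul_apply, τβ, ρβ]) (by rw [Perm.mul_apply, τβ', ρβ'])
  rw [← Perm.subtypePerm_mul ρ τ hρP hτP, ← Perm.subtypePerm_mul ρ τ hρQ hτQ] at q3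
  have e0 : ℰ.toSurfaceMap.euler = (numOrbits ℰ.rot : ℤ) - (numOrbits ℰ.rev : ℤ) +
    (numOrbits (ℰ.rot * ℰ.rev) : ℤ) := rfl
  rw [e0, e2, f2]
  omega

end Pool.Agent.KS6_63.HT3
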